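import Mathlib

set_option autoImplicit false

/-!
Oriented matroids, given by their signed circuits, their `k`-neighborly reorientations, and
the alternating oriented matroids.
-/

namespace Pool.Agent.Work.MP_463270_co

/-- An oriented matroid on the ground set `E`, given by its set of signed circuits
(sign vectors in `{-1, 0, 1}^E`), with the usual circuit axioms. -/
structure OrientedMatroid (E : Type*) where
  /-- the signed circuits -/
  circuits : Set (E → SignType)
  /-- the zero vector is not a circuit -/
  zero_notMem : (0 : E → SignType) ∉ circuits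
  /-- symmetry -/
  neg_mem : ∀ X ∈ circuits, -X ∈ circuits
  /-- incomparability of supports -/
  incomparable : ∀ X ∈ circuits, ∀ Y ∈ circuits,
    (∀ e, X e ≠ 0 → Y e ≠ 0) → X = Y ∨ X = -Y
  /-- weak circuit elimination -/
  elimination : ∀ X ∈ circuits, ∀ Y ∈ circuits, X ≠ -Y → ∀ e, X e = 1 → Y e = -1 →
    ∃ Z ∈ circuits, Z e = 0 ∧ (∀ f, Z f = 1 → X f = 1 ∨ Y f = 1) ∧
      (∀ f, Z f = -1 → X f = -1 ∨ Y f = -1)

namespace OrientedMatroid

variable {E : Type*}

/-- A set is independent if it contains the support of no circuit. -/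
def Indep (M : OrientedMatroid E) (I : Finset E) : Prop :=
  ∀ X ∈ M.circuits, ∃ e, X e ≠ 0 ∧ e ∉ I

/-- `M` has rank `r`: the largest independent sets have exactly `r` elements. -/
def HasRank (M : OrientedMatroid E) (r : ℕ) : Prop :=
  (∃ I : Finset E, M.Indep I ∧ I.card = r) ∧ ∀ I : Finset E, M.Indep I → I.card ≤ r

/-- The sign vector `X` with the signs of all elements of `A` negated. -/
noncomputable def flip (A : Set E) (X : E → SignType) : E → SignType := by
  classical
  exact fun e => if e ∈ A then -X e else X e

theorem flip_of_mem {A : Set E} {e : E} (h : e ∈ A) (X : E → SignType) :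
    flip A X e = -X e := by
  simp [flip, h]

theorem flip_of_notMem {A : Set E} {e : E} (h : e ∉ A) (X : E → SignType) :
    flip A X e = X e := by
  simp [flip, h]

theorem flip_flip (A : Set E) (X : E → SignType) : flip A (flip A X) = X := by
  ext e
  by_cases h : e ∈ A
  · rw [flip_of_mem h, flip_of_mem h, neg_neg]
  · rw [flip_of_notMem h, flip_of_notMem h]

theorem flip_neg (A : Set E) (X : E → SignType) : flip A (-X) = -flip A X := by
  ext e
  by_cases h : e ∈ A
  · rw [Pi.neg_apply, flip_of_mem h, flip_of_mem h, Pi.neg_apply]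
  · rw [Pi.neg_apply, flip_of_notMem h, flip_of_notMem h, Pi.neg_apply]

theorem flip_ne_zero (A : Set E) (X : E → SignType) (e : E) :
    flip A X e ≠ 0 ↔ X e ≠ 0 := by
  by_cases h : e ∈ A
  · rw [flip_of_mem h, Ne, SignType.neg_eq_zero_iff]
  · rw [flip_of_notMem h]

/-- The reorientation of `M` on `A`: the signs of all elements of `A` are negated in all
circuits. -/
noncomputable def reorient (M : OrientedMatroid E) (A : Set E) : OrientedMatroid E where
  circuits := flip A '' M.circuits
  zero_notMem := by
    rintro ⟨X, hX, h0⟩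
    refine M.zero_notMem ?_
    have : X = 0 := by
      rw [← flip_flip A X, h0]
      ext e
      by_cases h : e ∈ A
      · rw [flip_of_mem h]; rfl
      · rw [flip_of_notMem h]
    rwa [this] at hX
  neg_mem := by
    rintro _ ⟨X, hX, rfl⟩
    exact ⟨-X, M.neg_mem X hX, flip_neg A X⟩
  incomparable := by
    rintro _ ⟨X, hX, rfl⟩ _ ⟨Y, hY, rfl⟩ h
    rcases M.incomparable X hX Y hY (fun e he => (flip_ne_zero A Y e).1
      (h e ((flip_ne_zero A X e).2 he))) with h1 | h1
    · left; rw [h1]
    · right; rw [h1, flip_neg]
  elimination := by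
    rintro _ ⟨X, hX, rfl⟩ _ ⟨Y, hY, rfl⟩ hne e hXe hYe
    have hne1 : X ≠ -Y := by
      rintro rfl
      exact hne (flip_neg A Y)
    have hne2 : Y ≠ -X := by
      rintro rfl
      exact hne1 (neg_neg X).symm
    by_cases he : e ∈ A
    · rw [flip_of_mem he] at hXe hYe
      have hXe' : X e = -1 := by rw [← hXe, neg_neg]
      have hYe' : Y e = 1 := by rw [← neg_neg (Y e), hYe]; rfl
      obtain ⟨Z, hZ, hZ0, hZp, hZn⟩ := M.elimination Y hY X hX hne2 e hYe' hXe'
      refine ⟨flip A Z, ⟨Z, hZ, rfl⟩, ?_, ?_, ?_⟩
      · rw [flip_of_mem he, hZ0]; rfl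
      · intro f hf
        by_cases h : f ∈ A
        · rw [flip_of_mem h] at hf ⊢
          rw [flip_of_mem h]
          have : Z f = -1 := by rw [← hf, neg_neg]
          rcases hZn f this with h1 | h1
          · right; rw [h1]; rfl
          · left; rw [h1]; rfl
        · rw [flip_of_notMem h] at hf ⊢
          rw [flip_of_notMem h]
          exact (hZp f hf).symm
      · intro f hf
        by_cases h : f ∈ A
        · rw [flip_of_mem h] at hf ⊢
          rw [flip_of_mem h]
          have : Z f = 1 := by rw [← neg_neg (Z f), hf]; rfl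
          rcases hZp f this with h1 | h1
          · right; rw [h1]
          · left; rw [h1]
        · rw [flip_of_notMem h] at hf ⊢
          rw [flip_of_notMem h]
          exact (hZn f hf).symm
    · rw [flip_of_notMem he] at hXe hYe
      obtain ⟨Z, hZ, hZ0, hZp, hZn⟩ := M.elimination X hX Y hY hne1 e hXe hYe
      refine ⟨flip A Z, ⟨Z, hZ, rfl⟩, ?_, ?_, ?_⟩
      · rw [flip_of_notMem he, hZ0]
      · intro f hf
        by_cases h : f ∈ A
        · rw [flip_of_mem h] at hf ⊢
          rw [flip_of_mem h]
          have : Z f = -1 := by rw [← hf, neg_neg]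
          rcases hZn f this with h1 | h1
          · left; rw [h1]; rfl
          · right; rw [h1]; rfl
        · rw [flip_of_notMem h] at hf ⊢
          rw [flip_of_notMem h]
          exact hZp f hf
      · intro f hf
        by_cases h : f ∈ A
        · rw [flip_of_mem h] at hf ⊢
          rw [flip_of_mem h]
          have : Z f = 1 := by rw [← neg_neg (Z f), hf]; rfl
          rcases hZp f this with h1 | h1
          · left; rw [h1]
          · right; rw [h1]
        · rw [flip_of_notMem h] at hf ⊢
          rw [flip_of_notMem h]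
          exact hZn f hf

/-- Two sign vectors are orthogonal if the products `X e * Y e` are either all zero or
take both the value `1` and the value `-1`. -/
def Orthogonal (X Y : E → SignType) : Prop :=
  (∀ e, X e * Y e = 0) ∨ ((∃ e, X e * Y e = 1) ∧ (∃ e, X e * Y e = -1))

/-- The covectors of `M` are the sign vectors orthogonal to all circuits. -/
def IsCovector (M : OrientedMatroid E) (Y : E → SignType) : Prop :=
  ∀ X ∈ M.circuits, Orthogonal X Y

/-- `M` is acyclic if it has no circuit with all signs positive. -/
def Acyclic (M : OrientedMatroid E) : Prop :=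
  ∀ X ∈ M.circuits, ∃ e, X e = -1

/-- `F` is a face of `M` if some covector is `0` on `F` and `+` outside `F`. -/
def IsFace (M : OrientedMatroid E) (F : Set E) : Prop :=
  ∃ Y, M.IsCovector Y ∧ (∀ e ∈ F, Y e = 0) ∧ ∀ e ∉ F, Y e = 1

/-- `M` is `k`-neighborly if it is acyclic and every set of at most `k` elements is a face. -/
def Neighborly (M : OrientedMatroid E) (k : ℕ) : Prop :=
  M.Acyclic ∧ ∀ F : Finset E, F.card ≤ k → M.IsFace (F : Set E)

/-- `m(M, k)`: the number of subsets `A` of `E` such that the reorientation of `M` on `A` is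
`k`-neighborly. -/
noncomputable def neighborlyCount (M : OrientedMatroid E) (k : ℕ) : ℕ :=
  {A : Set E | (M.reorient A).Neighborly k}.ncard

end OrientedMatroid

end Pool.Agent.Work.MP_463270_co
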