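import Mathlib

set_option autoImplicit false

/-!
Boolean sequences and their steps: the sign vector of the steps of a Boolean sequence is
alternating, and all alternating sign vectors arise in this way.
-/

namespace Pool.Agent.Work.MP_463270_co

/-- the step of the Boolean sequence `U` at `i`: `1` if it goes up, `-1` if it goes down -/
def st (U : ℕ → Bool) (i : ℕ) : SignType :=
  if U i = U (i + 1) then 0 else if U (i + 1) then 1 else -1

/-- the number of changes of `U` in the window `[a, b]` -/
def ch (U : ℕ → Bool) (a b : ℕ) : ℕ :=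
  ((Finset.Ico a b).filter fun i => U i ≠ U (i + 1)).card

theorem st_eq_zero_iff (U : ℕ → Bool) (i : ℕ) : st U i = 0 ↔ U i = U (i + 1) := by
  unfold st
  split_ifs with h1 h2
  · simp [h1]
  · simp [h1]
  · simp [h1]

theorem st_eq_one_iff (U : ℕ → Bool) (i : ℕ) :
    st U i = 1 ↔ U i = false ∧ U (i + 1) = true := by
  unfold st
  cases h1 : U i <;> cases h2 : U (i + 1) <;> simp

theorem st_eq_neg_one_iff (U : ℕ → Bool) (i : ℕ) :
    st U i = -1 ↔ U i = true ∧ U (i + 1) = false := by
  unfold st
  cases h1 : U i <;> cases h2 : U (i + 1) <;> simp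

theorem ch_self (U : ℕ → Bool) (a : ℕ) : ch U a a = 0 := by
  simp [ch]

theorem ch_succ (U : ℕ → Bool) {a b : ℕ} (h : a ≤ b) :
    ch U a (b + 1) = ch U a b + if U b = U (b + 1) then 0 else 1 := by
  unfold ch
  have h0 : Finset.Ico a (b + 1) = insert b (Finset.Ico a b) := by
    ext x
    simp only [Finset.mem_Ico, Finset.mem_insert]
    omega
  rw [h0, Finset.filter_insert]
  by_cases h1 : U b = U (b + 1)
  · rw [if_neg (not_not.2 h1), if_pos h1, add_zero]
  · rw [if_pos h1, if_neg h1, Finset.card_insert_of_notMem (by simp)]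

theorem ch_add (U : ℕ → Bool) {a b c : ℕ} (h1 : a ≤ b) (h2 : b ≤ c) :
    ch U a c = ch U a b + ch U b c := by
  unfold ch
  rw [← Finset.card_union_of_disjoint]
  · rw [← Finset.filter_union, Finset.Ico_union_Ico_eq_Ico h1 h2]
  · refine Finset.disjoint_filter_filter ?_
    exact Finset.Ico_disjoint_Ico_consecutive a b c

theorem ch_congr {U W : ℕ → Bool} {a b : ℕ} (h : ∀ i, a ≤ i → i ≤ b → U i = W i) :
    ch U a b = ch W a b := by
  unfold ch
  congr 1
  refine Finset.filter_congr fun i hi => ?_
  rw [Finset.mem_Ico] at hi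
  rw [h i hi.1 (by omega), h (i + 1) (by omega) (by omega)]

theorem ch_parity (U : ℕ → Bool) (a b : ℕ) (h : a ≤ b) : Even (ch U a b) ↔ U a = U b := by
  induction b, h using Nat.le_induction with
  | base => simp [ch_self]
  | succ b hb ih =>
    rw [ch_succ U hb]
    split_ifs with h1
    · rw [add_zero, ih, h1]
    · rw [Nat.even_add_one, ih]
      cases h2 : U a <;> cases h3 : U b <;> cases h4 : U (b + 1) <;> simp_all

theorem ch_le (U : ℕ → Bool) (a b : ℕ) : ch U a b ≤ b - a := by
  unfold ch
  refine (Finset.card_filter_le _ _).trans ?_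
  simp

/-- a sequence with many changes can be cut off after exactly `m` changes -/
theorem exists_ch_eq (U : ℕ → Bool) (n m : ℕ) (h : m ≤ ch U 0 n) :
    ∃ c ≤ n, ch U 0 c = m := by
  induction n with
  | zero =>
    rw [ch_self] at h
    exact ⟨0, le_rfl, by rw [ch_self]; omega⟩
  | succ n ih =>
    by_cases h1 : m ≤ ch U 0 n
    · obtain ⟨c, hc, hm⟩ := ih h1
      exact ⟨c, by omega, hm⟩
    · refine ⟨n + 1, le_rfl, ?_⟩
      have h2 := ch_succ U (Nat.zero_le n)
      split_ifs at h2 <;> omega

/-- the sequence `U` made constant from `c` on -/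
def cut (U : ℕ → Bool) (c : ℕ) : ℕ → Bool := fun i => U (min i c)

theorem ch_cut (U : ℕ → Bool) {c n : ℕ} (h : c ≤ n) : ch (cut U c) 0 n = ch U 0 c := by
  rw [ch_add (cut U c) (Nat.zero_le c) h]
  have h1 : ch (cut U c) 0 c = ch U 0 c := by
    refine ch_congr fun i _ hi => ?_
    rw [cut, min_eq_left hi]
  have h2 : ch (cut U c) c n = 0 := by
    unfold ch
    rw [Finset.card_eq_zero, Finset.filter_eq_empty_iff]
    intro i hi
    rw [Finset.mem_Ico] at hi
    simp only [cut, ne_eq, not_not]
    rw [min_eq_right hi.1, min_eq_right (by omega)]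
  rw [h1, h2, add_zero]

theorem st_cut (U : ℕ → Bool) (c i : ℕ) : st (cut U c) i = 0 ∨ st (cut U c) i = st U i := by
  by_cases h : i < c
  · right
    unfold st cut
    rw [min_eq_left h.le, min_eq_left (by omega : i + 1 ≤ c)]
  · left
    rw [st_eq_zero_iff]
    unfold cut
    rw [min_eq_right (by omega), min_eq_right (by omega)]

/-- three-piece splice -/
def spl (P Q R : ℕ → Bool) (j e : ℕ) : ℕ → Bool :=
  fun i => if i ≤ j then P i else if i ≤ e then Q i else R i

theorem ch_spl (P Q R : ℕ → Bool) {j e n : ℕ} (hje : j ≤ e) (hen : e < n)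
    (hj : P j = Q j) (he : Q e = R (e + 1)) :
    ch (spl P Q R j e) 0 n = ch P 0 j + ch Q j e + ch R (e + 1) n := by
  rw [ch_add (spl P Q R j e) (Nat.zero_le j) (by omega : j ≤ n),
    ch_add (spl P Q R j e) hje (by omega : e ≤ n),
    ch_add (spl P Q R j e) (Nat.le_succ e) (by omega : e + 1 ≤ n)]
  have h1 : ch (spl P Q R j e) 0 j = ch P 0 j := by
    refine ch_congr fun i _ hi => ?_
    rw [spl, if_pos hi]
  have h2 : ch (spl P Q R j e) j e = ch Q j e := by
    refine ch_congr fun i hi1 hi2 => ?_
    rw [spl]
    split_ifs with h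
    · have : i = j := by omega
      rw [this, hj]
    · rfl
  have h3 : ch (spl P Q R j e) e (e + 1) = 0 := by
    rw [ch_succ _ le_rfl, ch_self, zero_add]
    rw [if_pos]
    have e1 : spl P Q R j e e = Q e := by
      rw [spl]
      split_ifs with h h'
      · have : e = j := by omega
        rw [this, hj]
      · rfl
      · exact absurd le_rfl h'
    have e2 : spl P Q R j e (e + 1) = R (e + 1) := by
      rw [spl, if_neg (by omega), if_neg (by omega)]
    rw [e1, e2, he]
  have h4 : ch (spl P Q R j e) (e + 1) n = ch R (e + 1) n := by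
    refine ch_congr fun i hi1 hi2 => ?_
    rw [spl, if_neg (by omega), if_neg (by omega)]
  rw [h1, h2, h3, h4]
  omega

theorem st_spl (P Q R : ℕ → Bool) {j e : ℕ} (hje : j ≤ e)
    (hj : P j = Q j) (he : Q e = R (e + 1)) (f : ℕ) :
    (f = e → st (spl P Q R j e) f = 0) ∧
    (st (spl P Q R j e) f = 0 ∨ (f < j ∧ st (spl P Q R j e) f = st P f) ∨
      (j ≤ f ∧ f < e ∧ st (spl P Q R j e) f = st Q f) ∨
      (e < f ∧ st (spl P Q R j e) f = st R f)) := by
  have e1 : spl P Q R j e e = Q e := by
    rw [spl]
    split_ifs with h h'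
    · have : e = j := by omega
      rw [this, hj]
    · rfl
    · exact absurd le_rfl h'
  have e2 : spl P Q R j e (e + 1) = R (e + 1) := by
    rw [spl, if_neg (by omega), if_neg (by omega)]
  have e3 : st (spl P Q R j e) e = 0 := by
    rw [st_eq_zero_iff, e1, e2, he]
  refine ⟨fun h => by rw [h, e3], ?_⟩
  rcases lt_trichotomy f e with h | h | h
  · by_cases h1 : f < j
    · right; left
      refine ⟨h1, ?_⟩
      have a1 : spl P Q R j e f = P f := by rw [spl, if_pos h1.le]
      have a2 : spl P Q R j e (f + 1) = P (f + 1) := by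
        rw [spl, if_pos (show f + 1 ≤ j from h1)]
      unfold st
      rw [a1, a2]
    · right; right; left
      refine ⟨by omega, h, ?_⟩
      have a1 : spl P Q R j e f = Q f := by
        rw [spl]
        split_ifs with h2 h3
        · have : f = j := by omega
          rw [this, hj]
        · rfl
        · omega
      have a2 : spl P Q R j e (f + 1) = Q (f + 1) := by
        rw [spl, if_neg (by omega), if_pos (by omega)]
      unfold st
      rw [a1, a2]
  · left; rw [h, e3]
  · right; right; right
    refine ⟨h, ?_⟩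
    have a1 : spl P Q R j e f = R f := by rw [spl, if_neg (by omega), if_neg (by omega)]
    have a2 : spl P Q R j e (f + 1) = R (f + 1) := by
      rw [spl, if_neg (by omega), if_neg (by omega)]
    unfold st
    rw [a1, a2]

/-- the combinatorial core of circuit elimination for alternating sign vectors -/
theorem elim_aux (U W : ℕ → Bool) (n m e : ℕ) (hen : e < n)
    (hU1 : U e = false) (hU2 : U (e + 1) = true) (hW1 : W e = true) (hW2 : W (e + 1) = false)
    (hU : ch U 0 n = m) (hW : ch W 0 n = m) (hne : ∃ j ≤ n, U j = W j) :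
    ∃ Q : ℕ → Bool, ch Q 0 n = m ∧ st Q e = 0 ∧
      ∀ f, st Q f = 0 ∨ st Q f = st U f ∨ st Q f = st W f := by
  -- it suffices to find a sequence with at least `m` changes
  suffices hsuff : ∃ Q : ℕ → Bool, m ≤ ch Q 0 n ∧ st Q e = 0 ∧
      ∀ f, st Q f = 0 ∨ st Q f = st U f ∨ st Q f = st W f by
    obtain ⟨Q, h1, h2, h3⟩ := hsuff
    obtain ⟨c, hc, hcm⟩ := exists_ch_eq Q n m h1
    refine ⟨cut Q c, by rw [ch_cut Q hc, hcm], ?_, fun f => ?_⟩
    · rcases st_cut Q c e with h | h
      · exact h
      · rw [h, h2]
    · rcases st_cut Q c f with h | h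
      · exact Or.inl h
      · rw [h]; exact h3 f
  have aU : ch U 0 n = ch U 0 e + 1 + ch U (e + 1) n := by
    rw [ch_add U (Nat.zero_le (e + 1)) hen, ch_succ U (Nat.zero_le e), if_neg]
    rw [hU1, hU2]; decide
  have aW : ch W 0 n = ch W 0 e + 1 + ch W (e + 1) n := by
    rw [ch_add W (Nat.zero_le (e + 1)) hen, ch_succ W (Nat.zero_le e), if_neg]
    rw [hW1, hW2]; decide
  -- general construction
  have build : ∀ (P Q R : ℕ → Bool) (j : ℕ), j ≤ e → P j = Q j → Q e = R (e + 1) →
      (P = U ∨ P = W) → (Q = U ∨ Q = W) → (R = U ∨ R = W) →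
      m ≤ ch P 0 j + ch Q j e + ch R (e + 1) n →
      ∃ Q' : ℕ → Bool, m ≤ ch Q' 0 n ∧ st Q' e = 0 ∧
      ∀ f, st Q' f = 0 ∨ st Q' f = st U f ∨ st Q' f = st W f := by
    intro P Q R j hj h1 h2 hP hQ hR hm
    refine ⟨spl P Q R j e, ?_, (st_spl P Q R hj h1 h2 e).1 rfl, fun f => ?_⟩
    · rw [ch_spl P Q R hj hen h1 h2]; exact hm
    · rcases (st_spl P Q R hj h1 h2 f).2 with h | ⟨_, h⟩ | ⟨_, _, h⟩ | ⟨_, h⟩
      · exact Or.inl h
      · rw [h]; rcases hP with rfl | rfl
        · exact Or.inr (Or.inl rfl)
        · exact Or.inr (Or.inr rfl)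
      · rw [h]; rcases hQ with rfl | rfl
        · exact Or.inr (Or.inl rfl)
        · exact Or.inr (Or.inr rfl)
      · rw [h]; rcases hR with rfl | rfl
        · exact Or.inr (Or.inl rfl)
        · exact Or.inr (Or.inr rfl)
  by_cases c1 : m ≤ ch U 0 e + ch W (e + 1) n
  · exact build U U W e le_rfl rfl (by rw [hU1, hW2]) (Or.inl rfl) (Or.inl rfl) (Or.inr rfl)
      (by rw [ch_self]; omega)
  by_cases c2 : m ≤ ch W 0 e + ch U (e + 1) n
  · exact build W W U e le_rfl rfl (by rw [hW1, hU2]) (Or.inr rfl) (Or.inr rfl) (Or.inl rfl)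
      (by rw [ch_self]; omega)
  obtain ⟨j, hjn, hj⟩ := hne
  have hje : j ≠ e := by
    rintro rfl
    rw [hU1, hW1] at hj
    exact absurd hj (by decide)
  have hje1 : j ≠ e + 1 := by
    rintro rfl
    rw [hU2, hW2] at hj
    exact absurd hj (by decide)
  rcases Nat.lt_or_ge j e with hlt | hge
  · -- `j < e`
    have pU := ch_parity U j e hlt.le
    have pW := ch_parity W j e hlt.le
    have bU := ch_add U (Nat.zero_le j) hlt.le
    have bW := ch_add W (Nat.zero_le j) hlt.le
    have hpar : ¬ (Even (ch U j e) ↔ Even (ch W j e)) := by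
      rw [pU, pW, hU1, hW1, hj]
      cases W j <;> simp
    have hne2 : ch U j e ≠ ch W j e := by
      intro h
      rw [h] at hpar
      exact hpar Iff.rfl
    rcases Nat.lt_or_gt_of_ne hne2 with h | h
    · exact build U W U j hlt.le hj (by rw [hW1, hU2]) (Or.inl rfl) (Or.inr rfl) (Or.inl rfl)
        (by omega)
    · exact build W U W j hlt.le hj.symm (by rw [hU1, hW2]) (Or.inr rfl) (Or.inl rfl)
        (Or.inr rfl) (by omega)
  · -- `j > e + 1`
    have hj1 : e + 1 ≤ j := by omega
    have pU := ch_parity U (e + 1) j hj1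
    have pW := ch_parity W (e + 1) j hj1
    have bU := ch_add U hj1 hjn
    have bW := ch_add W hj1 hjn
    have hpar : ¬ (Even (ch U (e + 1) j) ↔ Even (ch W (e + 1) j)) := by
      rw [pU, pW, hU2, hW2, hj]
      cases W j <;> simp
    have hne2 : ch U (e + 1) j ≠ ch W (e + 1) j := by
      intro h
      rw [h] at hpar
      exact hpar Iff.rfl
    -- the tail obtained by switching at `j`
    have tail : ∀ P Q : ℕ → Bool, P j = Q j → (P = U ∨ P = W) → (Q = U ∨ Q = W) →
        ∀ f, st (fun i => if i ≤ j then P i else Q i) f = st U f ∨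
          st (fun i => if i ≤ j then P i else Q i) f = st W f := by
      intro P Q hPQ hP hQ f
      by_cases h : f < j
      · have h1 : st (fun i => if i ≤ j then P i else Q i) f = st P f := by
          unfold st
          simp only [if_pos h.le, if_pos (show f + 1 ≤ j from h)]
        rw [h1]; rcases hP with rfl | rfl
        · exact Or.inl rfl
        · exact Or.inr rfl
      · have h1 : st (fun i => if i ≤ j then P i else Q i) f = st Q f := by
          unfold st
          have h2 : (if f ≤ j then P f else Q f) = Q f := by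
            split_ifs with h3
            · have : f = j := by omega
              rw [this, hPQ]
            · rfl
          simp only [h2, if_neg (show ¬ f + 1 ≤ j by omega)]
        rw [h1]; rcases hQ with rfl | rfl
        · exact Or.inl rfl
        · exact Or.inr rfl
    have tailch : ∀ P Q : ℕ → Bool, P j = Q j →
        ch (fun i => if i ≤ j then P i else Q i) (e + 1) n = ch P (e + 1) j + ch Q j n := by
      intro P Q hPQ
      rw [ch_add _ hj1 hjn]
      congr 1
      · refine ch_congr fun i _ hi => ?_
        simp only [if_pos hi]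
      · refine ch_congr fun i hi _ => ?_
        split_ifs with h3
        · have : i = j := by omega
          rw [this, hPQ]
        · rfl
    have fin : ∀ P R : ℕ → Bool, (P = U ∨ P = W) → P e = R (e + 1) →
        (∀ f, st R f = st U f ∨ st R f = st W f) →
        m ≤ ch P 0 e + ch R (e + 1) n →
        ∃ Q' : ℕ → Bool, m ≤ ch Q' 0 n ∧ st Q' e = 0 ∧
        ∀ f, st Q' f = 0 ∨ st Q' f = st U f ∨ st Q' f = st W f := by
      intro P R hP h2 hR hm
      refine ⟨spl P P R e e, ?_, (st_spl P P R le_rfl rfl h2 e).1 rfl, fun f => ?_⟩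
      · rw [ch_spl P P R le_rfl hen rfl h2, ch_self, add_zero]; exact hm
      · rcases (st_spl P P R le_rfl rfl h2 f).2 with h | ⟨_, h⟩ | ⟨_, _, h⟩ | ⟨_, h⟩
        · exact Or.inl h
        · rw [h]; rcases hP with rfl | rfl
          · exact Or.inr (Or.inl rfl)
          · exact Or.inr (Or.inr rfl)
        · rw [h]; rcases hP with rfl | rfl
          · exact Or.inr (Or.inl rfl)
          · exact Or.inr (Or.inr rfl)
        · rw [h]; exact Or.inr (hR f)
    rcases Nat.lt_or_gt_of_ne hne2 with h | h
    · -- `U` before, then `W` until `j`, then `U`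
      refine fin U (fun i => if i ≤ j then W i else U i) (Or.inl rfl) ?_
        (tail W U hj.symm (Or.inr rfl) (Or.inl rfl)) ?_
      · simp only [if_pos hj1]
        rw [hU1, hW2]
      · rw [tailch W U hj.symm]
        omega
    · refine fin W (fun i => if i ≤ j then U i else W i) (Or.inr rfl) ?_
        (tail U W hj (Or.inl rfl) (Or.inr rfl)) ?_
      · simp only [if_pos hj1]
        rw [hW1, hU2]
      · rw [tailch U W hj]
        omega

/-- Every alternating sign sequence is the step sequence of a Boolean sequence. -/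
theorem exists_rep (x : ℕ → SignType)
    (hx : ∀ i j, i < j → x i ≠ 0 → x j ≠ 0 → (∀ l, i < l → l < j → x l = 0) → x j = -x i) :
    ∃ U : ℕ → Bool, ∀ i, x i = st U i := by
  classical
  let b : Bool := decide (∃ i, x i = -1 ∧ ∀ l < i, x l = 0)
  let U : ℕ → Bool := fun i => Nat.rec b (fun i u => if x i = 0 then u else decide (x i = 1)) i
  have U0 : U 0 = b := rfl
  have US : ∀ i, U (i + 1) = if x i = 0 then U i else decide (x i = 1) := fun i => rfl
  have inv : ∀ i, ((∀ l < i, x l = 0) ∧ U i = b) ∨
      ∃ l < i, x l ≠ 0 ∧ (∀ m, l < m → m < i → x m = 0) ∧ U i = decide (x l = 1) := by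
    intro i
    induction i with
    | zero => left; exact ⟨by simp, rfl⟩
    | succ i ih =>
      by_cases h0 : x i = 0
      · rcases ih with ⟨h1, h2⟩ | ⟨l, hl, h1, h2, h3⟩
        · left
          refine ⟨fun l hl => ?_, by rw [US, if_pos h0, h2]⟩
          rcases Nat.lt_succ_iff_lt_or_eq.1 hl with h | h
          · exact h1 l h
          · rw [h, h0]
        · right
          refine ⟨l, by omega, h1, fun m hm1 hm2 => ?_, by rw [US, if_pos h0, h3]⟩
          rcases Nat.lt_succ_iff_lt_or_eq.1 hm2 with h | h
          · exact h2 m hm1 h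
          · rw [h, h0]
      · right
        exact ⟨i, by omega, h0, fun m hm1 hm2 => by omega, by rw [US, if_neg h0]⟩
  refine ⟨U, fun i => ?_⟩
  by_cases h0 : x i = 0
  · rw [h0, eq_comm, st_eq_zero_iff, US, if_pos h0]
  · have hnext : U (i + 1) = decide (x i = 1) := by rw [US, if_neg h0]
    have hprev : U i = decide (x i = -1) := by
      rcases inv i with ⟨h1, h2⟩ | ⟨l, hl, h1, h2, h3⟩
      · rw [h2]
        by_cases h3 : x i = -1
        · have : b = true := by
            simp only [b, decide_eq_true_eq]
            exact ⟨i, h3, h1⟩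
          rw [this]; simp [h3]
        · have : b = false := by
            simp only [b, decide_eq_false_iff_not]
            rintro ⟨j, hj1, hj2⟩
            rcases lt_trichotomy i j with h | h | h
            · exact h0 (hj2 i h)
            · rw [h] at h3; exact h3 hj1
            · rw [h1 j h] at hj1
              exact absurd hj1 (by decide)
          rw [this]; simp [h3]
      · rw [h3]
        have h4 := hx l i hl h1 h0 h2
        rw [h4]
        have h5 : x l = 1 ∨ x l = -1 := by
          generalize x l = y at h1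
          cases y
          · exact absurd rfl h1
          · right; rfl
          · left; rfl
        rcases h5 with h5 | h5 <;> rw [h5] <;> decide
    have h5 : x i = 1 ∨ x i = -1 := by
      generalize x i = y at h0
      cases y
      · exact absurd rfl h0
      · right; rfl
      · left; rfl
    rcases h5 with h5 | h5
    · rw [h5] at hnext hprev
      rw [h5, eq_comm, st_eq_one_iff, hnext, hprev]
      decide
    · rw [h5] at hnext hprev
      rw [h5, eq_comm, st_eq_neg_one_iff, hnext, hprev]
      decide

/-- Step sequences are alternating. -/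
theorem st_alternating (U : ℕ → Bool) (i j : ℕ) (hij : i < j) (hi : st U i ≠ 0)
    (hj : st U j ≠ 0) (hl : ∀ l, i < l → l < j → st U l = 0) : st U j = -st U i := by
  have h1 : ∀ l, i + 1 ≤ l → l ≤ j → U l = U (i + 1) := by
    intro l hl1 hl2
    induction l, hl1 using Nat.le_induction with
    | base => rfl
    | succ l hl1 ih =>
      have h2 := (st_eq_zero_iff U l).1 (hl l (by omega) (by omega))
      rw [← h2]
      exact ih (by omega)
  have h2 := h1 j hij le_rfl
  rw [Ne, st_eq_zero_iff] at hi hj
  unfold st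
  rw [if_neg hi, if_neg hj]
  cases h3 : U (i + 1) <;> cases h4 : U (j + 1) <;> simp_all

end Pool.Agent.Work.MP_463270_co
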