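import Mathlib
import Pool.Agent.Work.MP_463270_co.Defs
import Pool.Agent.Work.MP_463270_co.Steps

set_option autoImplicit false

/-!
The alternating oriented matroid `C_r(n)`.
-/

namespace Pool.Agent.Work.MP_463270_co

/-- The signed circuits of the alternating oriented matroid of rank `r` on `n` elements: all
sign vectors `X` on `{0, ..., n - 1}` with exactly `r + 1` nonzero entries such that any two
consecutive nonzero entries of `X` have opposite signs. -/
def altCircuits (r n : ℕ) : Set (Fin n → SignType) :=
  {X | (Finset.univ.filter fun i => X i ≠ 0).card = r + 1 ∧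
    ∀ i j, i < j → X i ≠ 0 → X j ≠ 0 → (∀ l, i < l → l < j → X l = 0) → X j = -X i}

theorem card_fin_filter (n : ℕ) (p : ℕ → Prop) [DecidablePred p] :
    (Finset.univ.filter fun i : Fin n => p i).card = ((Finset.Ico 0 n).filter p).card := by
  rw [← Finset.card_map Fin.valEmbedding]
  congr 1
  ext x
  simp only [Finset.mem_map, Finset.mem_filter, Finset.mem_univ, true_and,
    Fin.valEmbedding_apply, Finset.mem_Ico]
  constructor
  · rintro ⟨i, hi, rfl⟩
    exact ⟨⟨Nat.zero_le _, i.2⟩, hi⟩
  · rintro ⟨⟨_, hx⟩, hp⟩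
    exact ⟨⟨x, hx⟩, hp, rfl⟩

theorem card_st (U : ℕ → Bool) (n : ℕ) :
    (Finset.univ.filter fun i : Fin n => st U i ≠ 0).card = ch U 0 n := by
  rw [card_fin_filter n (fun i => st U i ≠ 0)]
  unfold ch
  congr 1
  refine Finset.filter_congr fun i _ => ?_
  rw [Ne, st_eq_zero_iff]

theorem altCircuits_rep {r n : ℕ} {X : Fin n → SignType} (hX : X ∈ altCircuits r n) :
    ∃ U : ℕ → Bool, (∀ i : Fin n, X i = st U i) ∧ ch U 0 n = r + 1 := by
  obtain ⟨hcard, halt⟩ := hX
  obtain ⟨U, hU⟩ := exists_rep (fun i => if h : i < n then X ⟨i, h⟩ else 0) (by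
    intro i j hij hi hj hl
    have hjn : j < n := by
      by_contra h
      simp only [dif_neg h] at hj
      exact hj rfl
    have hin : i < n := by omega
    simp only [dif_pos hjn, dif_pos hin] at hi hj ⊢
    refine halt ⟨i, hin⟩ ⟨j, hjn⟩ hij hi hj fun l h1 h2 => ?_
    have h3 := hl l.1 h1 h2
    simpa only [dif_pos l.2] using h3)
  have hXU : ∀ i : Fin n, X i = st U i := by
    intro i
    rw [← hU i, dif_pos i.2]
  refine ⟨U, hXU, ?_⟩
  rw [← card_st, ← hcard]
  congr 1
  refine Finset.filter_congr fun i _ => ?_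
  rw [hXU i]

theorem altCircuits_of_rep {r n : ℕ} (U : ℕ → Bool) (hU : ch U 0 n = r + 1) :
    (fun i : Fin n => st U i) ∈ altCircuits r n := by
  refine ⟨by rw [card_st, hU], ?_⟩
  intro i j hij hi hj hl
  refine st_alternating U i j hij hi hj fun l h1 h2 => ?_
  have hln : l < n := by have := j.2; omega
  exact hl ⟨l, hln⟩ h1 h2

/-- two Boolean sequences with the same changes are equal or complementary -/
theorem eq_or_not_of_changes {U W : ℕ → Bool} {n : ℕ}
    (h : ∀ i < n, (U i = U (i + 1) ↔ W i = W (i + 1))) :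
    (∀ i ≤ n, U i = W i) ∨ (∀ i ≤ n, U i = !W i) := by
  by_cases h0 : U 0 = W 0
  · left
    intro i hi
    induction i with
    | zero => exact h0
    | succ i ih =>
      have h1 := ih (by omega)
      have h2 := h i (by omega)
      cases a1 : U i <;> cases a2 : U (i + 1) <;> cases a3 : W i <;> cases a4 : W (i + 1) <;>
        simp_all
  · right
    intro i hi
    induction i with
    | zero =>
      cases a1 : U 0 <;> cases a2 : W 0 <;> simp_all
    | succ i ih =>
      have h1 := ih (by omega)
      have h2 := h i (by omega)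
      cases a1 : U i <;> cases a2 : U (i + 1) <;> cases a3 : W i <;> cases a4 : W (i + 1) <;>
        simp_all

theorem st_not {U W : ℕ → Bool} {i : ℕ} (h1 : U i = !W i) (h2 : U (i + 1) = !W (i + 1)) :
    st U i = -st W i := by
  unfold st
  rw [h1, h2]
  cases W i <;> cases W (i + 1) <;> simp

/-- The alternating oriented matroid of rank `r` on `n` elements. -/
def alternating (r n : ℕ) : OrientedMatroid (Fin n) where
  circuits := altCircuits r n
  zero_notMem := by
    rintro ⟨h, _⟩
    simp at h
  neg_mem := by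
    rintro X ⟨h1, h2⟩
    refine ⟨?_, ?_⟩
    · rw [← h1]
      congr 1
      refine Finset.filter_congr fun i _ => ?_
      rw [Pi.neg_apply, Ne, SignType.neg_eq_zero_iff]
    · intro i j hij hi hj hl
      simp only [Pi.neg_apply, ne_eq, SignType.neg_eq_zero_iff] at hi hj hl ⊢
      rw [h2 i j hij hi hj hl]
  incomparable := by
    intro X hX Y hY h
    have hsupp : ∀ i, X i ≠ 0 ↔ Y i ≠ 0 := by
      have h1 : (Finset.univ.filter fun i => X i ≠ 0) ⊆ (Finset.univ.filter fun i => Y i ≠ 0) := by
        intro i hi
        rw [Finset.mem_filter] at hi ⊢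
        exact ⟨hi.1, h i hi.2⟩
      have h2 := Finset.eq_of_subset_of_card_le h1 (by rw [hX.1, hY.1])
      intro i
      have h3 := Finset.ext_iff.1 h2 i
      simpa using h3
    obtain ⟨U, hU, _⟩ := altCircuits_rep hX
    obtain ⟨W, hW, _⟩ := altCircuits_rep hY
    have hch : ∀ i < n, (U i = U (i + 1) ↔ W i = W (i + 1)) := by
      intro i hi
      have h1 := hsupp ⟨i, hi⟩
      rw [hU, hW] at h1
      rw [← st_eq_zero_iff, ← st_eq_zero_iff]
      exact not_iff_not.1 h1
    rcases eq_or_not_of_changes hch with h1 | h1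
    · left
      ext i
      rw [hU, hW]
      unfold st
      rw [h1 i i.2.le, h1 (i + 1) i.2]
    · right
      ext i
      rw [Pi.neg_apply, hU, hW]
      exact st_not (h1 i i.2.le) (h1 (i + 1) i.2)
  elimination := by
    intro X hX Y hY hne e hXe hYe
    obtain ⟨U, hU, hUc⟩ := altCircuits_rep hX
    obtain ⟨W, hW, hWc⟩ := altCircuits_rep hY
    rw [hU, st_eq_one_iff] at hXe
    rw [hW, st_eq_neg_one_iff] at hYe
    obtain ⟨Q, hQc, hQe, hQ⟩ := elim_aux U W n (r + 1) e e.2 hXe.1 hXe.2 hYe.1 hYe.2 hUc hWc (by
      by_contra hcon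
      push Not at hcon
      apply hne
      ext i
      rw [Pi.neg_apply, hU, hW]
      refine st_not ?_ ?_
      · have := hcon i i.2.le
        cases a1 : U i <;> cases a2 : W i <;> simp_all
      · have := hcon (i + 1) i.2
        cases a1 : U (i + 1) <;> cases a2 : W (i + 1) <;> simp_all)
    refine ⟨fun i => st Q i, altCircuits_of_rep Q hQc, hQe, ?_, ?_⟩
    · intro f hf
      change st Q f = 1 at hf
      rw [hU, hW]
      rcases hQ f with h | h | h
      · rw [h] at hf; exact absurd hf (by decide)
      · left; rw [← h]; exact hf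
      · right; rw [← h]; exact hf
    · intro f hf
      change st Q f = -1 at hf
      rw [hU, hW]
      rcases hQ f with h | h | h
      · rw [h] at hf; exact absurd hf (by decide)
      · left; rw [← h]; exact hf
      · right; rw [← h]; exact hf

end Pool.Agent.Work.MP_463270_co
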