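import Mathlib

set_option autoImplicit false

/-!
The coefficient identity used in the bound for `k`-neighborly reorientations.
-/

namespace Pool.Agent.Work.MP_463270_co

open Polynomial

/-- the polynomial `(1 + X)^a (1 - X)^b` -/
noncomputable def kraw (a b : ℕ) : ℚ[X] := (1 + X) ^ a * (1 - X) ^ b

/-- coefficients of `(1 - X^2)^{-j}` -/
noncomputable def qq : ℕ → ℕ → ℚ
  | 0, i => if i = 0 then 1 else 0
  | (j + 1), i => ∑ p ∈ Finset.HasAntidiagonal.antidiagonal i, qq j p.1 * (if Even p.2 then 1 else 0)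

theorem qq_odd (j i : ℕ) (hi : ¬ Even i) : qq j i = 0 := by
  induction j generalizing i with
  | zero =>
    have : i ≠ 0 := by rintro rfl; exact hi (by decide)
    simp [qq, this]
  | succ j ih =>
    rw [qq]
    refine Finset.sum_eq_zero fun p hp => ?_
    have hp' := Finset.HasAntidiagonal.mem_antidiagonal.1 hp
    by_cases h1 : Even p.2
    · have h2 : ¬ Even p.1 := by
        intro h2
        exact hi (hp' ▸ h2.add h1)
      rw [ih _ h2, zero_mul]
    · rw [if_neg h1, mul_zero]

theorem qq_nonneg (j i : ℕ) : 0 ≤ qq j i := by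
  induction j generalizing i with
  | zero => rw [qq]; split <;> norm_num
  | succ j ih =>
    rw [qq]
    refine Finset.sum_nonneg fun p _ => mul_nonneg (ih _) ?_
    split <;> norm_num

theorem qq_zero (j : ℕ) : qq j 0 = 1 := by
  induction j with
  | zero => simp [qq]
  | succ j ih => simp [qq, ih]

theorem qq_pos (j i : ℕ) (hi : Even i) : 0 < qq (j + 1) i := by
  rw [qq]
  have hmem : ((0, i) : ℕ × ℕ) ∈ Finset.HasAntidiagonal.antidiagonal i := by simp
  refine Finset.sum_pos' (fun p _ => mul_nonneg (qq_nonneg _ _) (by split <;> norm_num))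
    ⟨(0, i), hmem, ?_⟩
  simp [qq_zero, hi]

/-- the power series `1 / (1 - X^2)` -/
noncomputable def evs : PowerSeries ℚ := PowerSeries.mk fun i => if Even i then 1 else 0

theorem evs_mul : evs * (1 - PowerSeries.X ^ 2) = 1 := by
  ext n
  rw [mul_sub, mul_one, map_sub]
  rcases n with _ | _ | n
  · simp [evs, PowerSeries.coeff_mul_X_pow']
  · simp [evs, PowerSeries.coeff_mul_X_pow', PowerSeries.coeff_one]
  · rw [PowerSeries.coeff_mul_X_pow']
    simp only [evs, PowerSeries.coeff_mk, PowerSeries.coeff_one]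
    have h1 : (2 : ℕ) ≤ n + 1 + 1 := by omega
    have h2 : n + 1 + 1 - 2 = n := by omega
    rw [if_pos h1, h2]
    have h3 : Even (n + 1 + 1) ↔ Even n := by
      rw [show n + 1 + 1 = n + 2 from rfl, Nat.even_add]
      simp
    simp [h3]

/-- the power series `(1 - X^2)^{-j}` -/
theorem qq_series (j : ℕ) : PowerSeries.mk (qq j) = evs ^ j := by
  induction j with
  | zero =>
    ext i
    simp [qq, PowerSeries.coeff_one]
  | succ j ih =>
    rw [pow_succ, ← ih]
    ext i
    rw [PowerSeries.coeff_mul, PowerSeries.coeff_mk, qq]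
    simp [evs]

theorem kraw_div (k a b : ℕ) (ha : k ≤ a) (hb : k ≤ b) (m : ℕ) :
    ∑ p ∈ Finset.HasAntidiagonal.antidiagonal m, qq k p.1 * (kraw a b).coeff p.2
      = (kraw (a - k) (b - k)).coeff m := by
  have h1 : kraw a b = (1 - X ^ 2) ^ k * kraw (a - k) (b - k) := by
    unfold kraw
    obtain ⟨a', rfl⟩ := Nat.exists_eq_add_of_le ha
    obtain ⟨b', rfl⟩ := Nat.exists_eq_add_of_le hb
    rw [Nat.add_sub_cancel_left, Nat.add_sub_cancel_left]
    have : (1 - X ^ 2 : ℚ[X]) = (1 + X) * (1 - X) := by ring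
    rw [this, mul_pow, pow_add, pow_add]
    ring
  have h2 : (PowerSeries.mk (qq k)) * ((kraw a b : ℚ[X]) : PowerSeries ℚ)
      = ((kraw (a - k) (b - k) : ℚ[X]) : PowerSeries ℚ) := by
    rw [h1, qq_series]
    push_cast
    rw [← mul_assoc, ← mul_pow, evs_mul, one_pow, one_mul]
  have h3 := congrArg (PowerSeries.coeff m) h2
  rw [PowerSeries.coeff_mul] at h3
  simpa using h3

theorem reflect_one_add : reflect 1 (1 + X : ℚ[X]) = 1 + X := by
  rw [reflect_add]
  have h1 : reflect 1 (1 : ℚ[X]) = X := by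
    have := @reflect_C_mul_X_pow ℚ _ 1 0 1
    simpa using this
  have h2 : reflect 1 (X : ℚ[X]) = 1 := by
    have := @reflect_C_mul_X_pow ℚ _ 1 1 1
    simpa using this
  rw [h1, h2, add_comm]

theorem reflect_one_sub : reflect 1 (1 - X : ℚ[X]) = -(1 - X) := by
  have h1 : reflect 1 (1 : ℚ[X]) = X := by
    have := @reflect_C_mul_X_pow ℚ _ 1 0 1
    simpa using this
  have h2 : reflect 1 (X : ℚ[X]) = 1 := by
    have := @reflect_C_mul_X_pow ℚ _ 1 1 1
    simpa using this
  rw [sub_eq_add_neg, reflect_add, reflect_neg, h1, h2]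
  ring

theorem natDegree_one_add : (1 + X : ℚ[X]).natDegree ≤ 1 := by
  compute_degree

theorem natDegree_one_sub : (1 - X : ℚ[X]).natDegree ≤ 1 := by
  compute_degree

theorem natDegree_kraw (a b : ℕ) : (kraw a b).natDegree ≤ a + b := by
  unfold kraw
  refine natDegree_mul_le.trans (add_le_add ?_ ?_)
  · refine (natDegree_pow_le).trans ?_
    simpa using Nat.mul_le_mul_left a natDegree_one_add
  · refine (natDegree_pow_le).trans ?_
    simpa using Nat.mul_le_mul_left b natDegree_one_sub

theorem reflect_kraw (a b : ℕ) : reflect (a + b) (kraw a b) = (-1) ^ b * kraw a b := by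
  induction a with
  | zero =>
    induction b with
    | zero =>
      have := @reflect_C_mul_X_pow ℚ _ 0 0 1
      simpa [kraw] using this
    | succ b ih =>
      have h : kraw 0 (b + 1) = kraw 0 b * (1 - X) := by
        unfold kraw; ring
      rw [h, show 0 + (b + 1) = (0 + b) + 1 from by omega,
        reflect_mul _ _ (natDegree_kraw 0 b) natDegree_one_sub, ih, reflect_one_sub]
      ring
  | succ a ih =>
    have h : kraw (a + 1) b = kraw a b * (1 + X) := by
      unfold kraw; ring
    rw [h, show a + 1 + b = (a + b) + 1 from by omega,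
      reflect_mul _ _ (natDegree_kraw a b) natDegree_one_add, ih, reflect_one_add]
    ring

theorem kraw_symm (a b j : ℕ) (hj : j ≤ a + b) :
    (kraw a b).coeff (a + b - j) = (-1) ^ b * (kraw a b).coeff j := by
  have h := congrArg (fun p : ℚ[X] => p.coeff j) (reflect_kraw a b)
  simp only [coeff_reflect] at h
  rw [revAt_le hj] at h
  rw [h]
  have : ((-1 : ℚ[X]) ^ b) = C ((-1 : ℚ) ^ b) := by
    simp
  rw [this, coeff_C_mul]

theorem kraw_top (a b j : ℕ) (hj : a + b < j) : (kraw a b).coeff j = 0 :=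
  coeff_eq_zero_of_natDegree_lt ((natDegree_kraw a b).trans_lt hj)

/-- The reciprocity identity. -/
theorem kraw_reciprocity (k d a b u : ℕ) (ha : k + 1 ≤ a) (hb : k + 1 ≤ b)
    (hab : a + b = d + 2 * k + 2) (hu : 1 ≤ u) (hud : u ≤ d + 1) :
    ∑ p ∈ Finset.HasAntidiagonal.antidiagonal (d + 1 - u), qq (k + 1) p.1 * (kraw a b).coeff p.2
      = (-1) ^ (k + 1) * (-1) ^ b *
        ∑ p ∈ Finset.HasAntidiagonal.antidiagonal (u - 1), qq (k + 1) p.1 * (kraw a b).coeff p.2 := by
  rw [kraw_div (k + 1) a b ha hb, kraw_div (k + 1) a b ha hb]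
  have h1 : d + 1 - u = (a - (k + 1)) + (b - (k + 1)) - (u - 1) := by omega
  rw [h1, kraw_symm _ _ _ (by omega)]
  congr 1
  obtain ⟨c, rfl⟩ := Nat.exists_eq_add_of_le hb
  rw [Nat.add_sub_cancel_left, pow_add (-1 : ℚ) (k + 1) c, ← mul_assoc, ← mul_pow]
  simp

/-- The top coefficient vanishes. -/
theorem kraw_vanish (k d a b : ℕ) (ha : k + 1 ≤ a) (hb : k + 1 ≤ b)
    (hab : a + b = d + 2 * k + 2) :
    ∑ p ∈ Finset.HasAntidiagonal.antidiagonal (d + 1), qq (k + 1) p.1 * (kraw a b).coeff p.2 = 0 := by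
  rw [kraw_div (k + 1) a b ha hb]
  exact kraw_top _ _ _ (by omega)

end Pool.Agent.Work.MP_463270_co
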