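import Mathlib
import Pool.Agent.Work.MP_463270_co.Series

set_option autoImplicit false

/-!
The polynomial argument: on a symmetric family of sign vectors in which every
`(d + 2k + 2)`-subset of the ground set is balanced up to `k + 1`, with a ground set of
`2d + 2k + 3` elements, every function is spanned by few monomials.
-/

namespace Pool.Agent.Work.MP_463270_co

open Polynomial

section

variable {α : Type*} [DecidableEq α]

/-- the sign of `e` in the sign vector given by the set `A` of negative elements -/
def sg (A : Finset α) (e : α) : ℚ := if e ∈ A then -1 else 1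

theorem sg_mul_self (A : Finset α) (e : α) : sg A e * sg A e = 1 := by
  unfold sg; split <;> norm_num

/-- the monomial with index set `S` -/
def mo (S A : Finset α) : ℚ := ∏ e ∈ S, sg A e

theorem mo_mul_self (S A : Finset α) : mo S A * mo S A = 1 := by
  unfold mo
  rw [← Finset.prod_mul_distrib]
  exact Finset.prod_eq_one fun e _ => sg_mul_self A e

theorem mo_union {S T : Finset α} (h : Disjoint S T) (A : Finset α) :
    mo (S ∪ T) A = mo S A * mo T A := Finset.prod_union h

theorem mo_of_subset {G A : Finset α} (h : A ⊆ G) : mo G A = (-1) ^ A.card := by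
  unfold mo sg
  rw [← Finset.prod_filter_mul_prod_filter_not G (fun e => e ∈ A)]
  rw [Finset.prod_congr rfl (g := fun _ => (-1 : ℚ)) (fun e he => if_pos (Finset.mem_filter.1 he).2),
    Finset.prod_congr rfl (g := fun _ => (1 : ℚ)) (s₁ := G.filter (fun e => e ∉ A))
      (fun e he => if_neg (Finset.mem_filter.1 he).2)]
  rw [Finset.prod_const, Finset.prod_const_one, mul_one]
  congr 2
  ext e
  simp only [Finset.mem_filter]
  exact ⟨fun h => h.2, fun h' => ⟨h h', h'⟩⟩

/-- multiplying a monomial by a variable -/
theorem mo_mul_sg (S A : Finset α) (a : α) :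
    mo S A * sg A a = if a ∈ S then mo (S.erase a) A else mo (insert a S) A := by
  split_ifs with h
  · have h1 : mo S A = sg A a * mo (S.erase a) A := (Finset.mul_prod_erase S _ h).symm
    rw [h1]
    have := sg_mul_self A a
    linear_combination mo (S.erase a) A * this
  · have h1 : mo (insert a S) A = sg A a * mo S A := Finset.prod_insert h
    rw [h1, mul_comm]

/-- the elementary symmetric function of degree `j` of the products `sg A e * sg X e`, `e ∈ C` -/
def es (C X A : Finset α) (j : ℕ) : ℚ := ∑ S ∈ C.powersetCard j, mo S X * mo S A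

theorem es_eq_coeff (C X A : Finset α) (j : ℕ) :
    es C X A j = (∏ e ∈ C, (1 + Polynomial.C (sg X e * sg A e) * Polynomial.X)).coeff j := by
  rw [Finset.prod_one_add, Polynomial.finsetSum_coeff]
  have h1 : ∀ S ∈ C.powerset, (∏ e ∈ S, (Polynomial.C (sg X e * sg A e) * Polynomial.X)).coeff j
      = if S.card = j then mo S X * mo S A else 0 := by
    intro S _
    rw [Finset.prod_mul_distrib, Finset.prod_const, ← map_prod, Finset.prod_mul_distrib,
      Polynomial.coeff_C_mul_X_pow]
    simp only [mo, eq_comm]
  rw [Finset.sum_congr rfl h1, ← Finset.sum_filter, es, Finset.powersetCard_eq_filter]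

theorem es_zero (C X A : Finset α) : es C X A 0 = 1 := by
  simp [es, mo]

/-- the generating polynomial in terms of the numbers of agreements and disagreements -/
theorem prod_eq_kraw (C X A : Finset α) :
    (∏ e ∈ C, (1 + Polynomial.C (sg X e * sg A e) * Polynomial.X))
      = kraw (C \ symmDiff A X).card (C ∩ symmDiff A X).card := by
  unfold kraw
  rw [← Finset.prod_filter_mul_prod_filter_not C (fun e => e ∉ symmDiff A X)]
  congr 1
  · rw [show C \ symmDiff A X = C.filter (fun e => e ∉ symmDiff A X) from by
      ext e; simp, ← Finset.prod_const]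
    refine Finset.prod_congr rfl fun e he => ?_
    have he2 := (Finset.mem_filter.1 he).2
    have : sg X e * sg A e = 1 := by
      unfold sg
      rw [Finset.mem_symmDiff] at he2
      by_cases h1 : e ∈ X <;> by_cases h2 : e ∈ A <;> simp [h1, h2] at he2 ⊢
    rw [this]; simp
  · rw [show C ∩ symmDiff A X = C.filter (fun e => ¬ e ∉ symmDiff A X) from by
      ext e; simp, ← Finset.prod_const]
    refine Finset.prod_congr rfl fun e he => ?_
    have he2 := (Finset.mem_filter.1 he).2
    have : sg X e * sg A e = -1 := by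
      unfold sg
      rw [Finset.mem_symmDiff] at he2
      by_cases h1 : e ∈ X <;> by_cases h2 : e ∈ A <;> simp [h1, h2] at he2 ⊢
    rw [this]; simp [sub_eq_add_neg]

/-- product of all the signs -/
theorem mo_mul_mo (C X A : Finset α) :
    mo C X * mo C A = (-1) ^ (C ∩ symmDiff A X).card := by
  unfold mo
  rw [← Finset.prod_mul_distrib,
    ← Finset.prod_filter_mul_prod_filter_not C (fun e => e ∉ symmDiff A X)]
  rw [show C ∩ symmDiff A X = C.filter (fun e => ¬ e ∉ symmDiff A X) from by
      ext e; simp, ← Finset.prod_const]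
  rw [Finset.prod_eq_one (s := C.filter (fun e => e ∉ symmDiff A X)), one_mul]
  · refine Finset.prod_congr rfl fun e he => ?_
    have he2 := (Finset.mem_filter.1 he).2
    unfold sg
    rw [Finset.mem_symmDiff] at he2
    by_cases h1 : e ∈ X <;> by_cases h2 : e ∈ A <;> simp [h1, h2] at he2 ⊢
  · intro e he
    have he2 := (Finset.mem_filter.1 he).2
    unfold sg
    rw [Finset.mem_symmDiff] at he2
    by_cases h1 : e ∈ X <;> by_cases h2 : e ∈ A <;> simp [h1, h2] at he2 ⊢

/-- Every `N`-subset `C` of `G` has a sign vector (with set of negative elements `X`) such that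
all members of the family agree with it in at least `k + 1` and disagree with it in at least
`k + 1` elements of `C`. -/
def Balanced (k N : ℕ) (G : Finset α) (V : Finset (Finset α)) : Prop :=
  ∀ C ⊆ G, C.card = N → ∃ X : Finset α, ∀ A ∈ V,
    k + 1 ≤ (C ∩ symmDiff A X).card ∧ k + 1 ≤ (C \ symmDiff A X).card

/-- the monomial `S` as a function on the family -/
def mf (V : Finset (Finset α)) (S : Finset α) : V → ℚ := fun A => mo S A.1

/-- index sets of the monomials that will be shown to span -/
def idx (d : ℕ) (G : Finset α) : Finset (Finset α) :=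
  G.powerset.filter fun S => S.card ≤ d ∧ (S.card + d) % 2 = 0

/-- the span of the monomials with index in `idx` -/
def Osp (d : ℕ) (G : Finset α) (V : Finset (Finset α)) : Submodule ℚ (V → ℚ) :=
  Submodule.span ℚ ((idx d G).image (mf V) : Finset (V → ℚ))

theorem mf_mem_Osp {d : ℕ} {G : Finset α} {V : Finset (Finset α)} {S : Finset α}
    (hS : S ⊆ G) (h1 : S.card ≤ d) (h2 : (S.card + d) % 2 = 0) : mf V S ∈ Osp d G V := by
  refine Submodule.subset_span ?_
  rw [Finset.mem_coe, Finset.mem_image]
  exact ⟨S, Finset.mem_filter.2 ⟨Finset.mem_powerset.2 hS, h1, h2⟩, rfl⟩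

/-- key step: monomials of the other parity -/
theorem mf_mem_of_other {k d : ℕ} {G : Finset α} {V : Finset (Finset α)}
    (hG : G.card = 2 * d + 2 * k + 3) (hV : Balanced k (d + 2 * k + 2) G V)
    (hsub : ∀ A ∈ V, A ⊆ G) (heven : ∀ A ∈ V, Even A.card) :
    ∀ m : ℕ, ∀ U ⊆ G, U.card + 2 * m = d + 1 → mf V U ∈ Osp d G V := by
  intro m
  induction m using Nat.strong_induction_on with
  | _ m ih =>
  intro U hU hcard
  obtain ⟨T, hUT, hTG, hT⟩ := Finset.exists_subsuperset_card_eq hU
    (show U.card ≤ d + 1 by omega) (show d + 1 ≤ G.card by omega)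
  have hCcard : (G \ T).card = d + 2 * k + 2 := by
    rw [Finset.card_sdiff_of_subset hTG]; omega
  obtain ⟨X, hX⟩ := hV (G \ T) Finset.sdiff_subset hCcard
  set C := G \ T with hC
  -- functions
  have hterm : ∀ W ⊆ T, ∀ j, (∀ S ⊆ C, S.card = j → mf V (W ∪ S) ∈ Osp d G V) →
      (fun A : V => mo W A.1 * es C X A.1 j) ∈ Osp d G V := by
    intro W hW j hmem
    have h1 : (fun A : V => mo W A.1 * es C X A.1 j)
        = ∑ S ∈ C.powersetCard j, mo S X • mf V (W ∪ S) := by
      funext A
      rw [Finset.sum_apply, es, Finset.mul_sum]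
      refine Finset.sum_congr rfl fun S hS => ?_
      have hSC := (Finset.mem_powersetCard.1 hS).1
      have hdis : Disjoint W S := by
        refine Finset.disjoint_of_subset_left hW (Finset.disjoint_of_subset_right hSC ?_)
        rw [hC]; exact Finset.disjoint_sdiff
      rw [Pi.smul_apply, smul_eq_mul, mf, mo_union hdis]
      ring
    rw [h1]
    refine Submodule.sum_mem _ fun S hS => Submodule.smul_mem _ _ ?_
    exact hmem S (Finset.mem_powersetCard.1 hS).1 (Finset.mem_powersetCard.1 hS).2
  -- the left-hand side as a function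
  have hA : ∀ A : V, k + 1 ≤ (C \ symmDiff A.1 X).card ∧ k + 1 ≤ (C ∩ symmDiff A.1 X).card ∧
      (C \ symmDiff A.1 X).card + (C ∩ symmDiff A.1 X).card = d + 2 * k + 2 := by
    intro A
    refine ⟨(hX A.1 A.2).2, (hX A.1 A.2).1, ?_⟩
    rw [← hCcard]
    exact Finset.card_sdiff_add_card_inter C _
  have hes : ∀ (A : V) (j : ℕ), es C X A.1 j
      = (kraw (C \ symmDiff A.1 X).card (C ∩ symmDiff A.1 X).card).coeff j := by
    intro A j
    rw [es_eq_coeff, prod_eq_kraw]
  have hmoG : ∀ A : V, mo T A.1 * mo C A.1 = 1 := by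
    intro A
    have h1 : mo G A.1 = 1 := by
      rw [mo_of_subset (hsub A.1 A.2)]
      exact (heven A.1 A.2).neg_one_pow
    have h2 : G = T ∪ C := by
      rw [hC, Finset.union_sdiff_of_subset hTG]
    have h3 : Disjoint T C := by rw [hC]; exact Finset.disjoint_sdiff
    rw [← mo_union h3, ← h2, h1]
  have hTU : ∀ A : V, mo U A.1 * mo T A.1 = mo (T \ U) A.1 := by
    intro A
    have h1 : T = U ∪ (T \ U) := (Finset.union_sdiff_of_subset hUT).symm
    have h2 : mo T A.1 = mo U A.1 * mo (T \ U) A.1 := by
      conv_lhs => rw [h1]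
      exact mo_union Finset.disjoint_sdiff A.1
    rw [h2]
    linear_combination mo (T \ U) A.1 * mo_mul_self U A.1
  -- the identity
  have hid : ∀ A : V,
      ∑ p ∈ Finset.HasAntidiagonal.antidiagonal (2 * m),
        qq (k + 1) p.1 * (mo U A.1 * es C X A.1 p.2)
      = if U.card = 0 then 0 else
        (-1) ^ (k + 1) * mo C X *
        ∑ p ∈ Finset.HasAntidiagonal.antidiagonal (U.card - 1),
          qq (k + 1) p.1 * (mo (T \ U) A.1 * es C X A.1 p.2) := by
    intro A
    obtain ⟨h1, h2, h3⟩ := hA A
    have hL : ∑ p ∈ Finset.HasAntidiagonal.antidiagonal (2 * m),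
        qq (k + 1) p.1 * (mo U A.1 * es C X A.1 p.2)
        = mo U A.1 * ∑ p ∈ Finset.HasAntidiagonal.antidiagonal (2 * m), qq (k + 1) p.1 *
          (kraw (C \ symmDiff A.1 X).card (C ∩ symmDiff A.1 X).card).coeff p.2 := by
      rw [Finset.mul_sum]
      refine Finset.sum_congr rfl fun p _ => ?_
      rw [hes]; ring
    have hR : ∀ c : ℕ, ∑ p ∈ Finset.HasAntidiagonal.antidiagonal c,
        qq (k + 1) p.1 * (mo (T \ U) A.1 * es C X A.1 p.2)
        = mo (T \ U) A.1 * ∑ p ∈ Finset.HasAntidiagonal.antidiagonal c, qq (k + 1) p.1 *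
          (kraw (C \ symmDiff A.1 X).card (C ∩ symmDiff A.1 X).card).coeff p.2 := by
      intro c
      rw [Finset.mul_sum]
      refine Finset.sum_congr rfl fun p _ => ?_
      rw [hes]; ring
    rw [hL, hR]
    split_ifs with hu
    · have : 2 * m = d + 1 := by omega
      rw [this, kraw_vanish k d _ _ h1 h2 h3, mul_zero]
    · have h4 : 2 * m = d + 1 - U.card := by omega
      rw [h4, kraw_reciprocity k d _ _ U.card h1 h2 h3 (by omega) (by omega), ← hTU A,
        ← mo_mul_mo C X A.1]
      have h5 : mo C A.1 = mo T A.1 := by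
        have := hmoG A
        have h6 := mo_mul_self T A.1
        calc mo C A.1 = (mo T A.1 * mo T A.1) * mo C A.1 := by rw [h6, one_mul]
          _ = mo T A.1 * (mo T A.1 * mo C A.1) := by ring
          _ = mo T A.1 := by rw [this, mul_one]
      rw [h5]
      ring
  -- the function `U` expressed through the others
  have hmem0 : ((0, 2 * m) : ℕ × ℕ) ∈ Finset.HasAntidiagonal.antidiagonal (2 * m) := by simp
  have hlast : ((2 * m, 0) : ℕ × ℕ) ∈ Finset.HasAntidiagonal.antidiagonal (2 * m) := by simp
  have hpos : 0 < qq (k + 1) (2 * m) := qq_pos k (2 * m) (even_two_mul m)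
  have hsum : (fun A : V => ∑ p ∈ Finset.HasAntidiagonal.antidiagonal (2 * m),
        qq (k + 1) p.1 * (mo U A.1 * es C X A.1 p.2)) ∈ Osp d G V := by
    have h1 : (fun A : V => ∑ p ∈ Finset.HasAntidiagonal.antidiagonal (2 * m),
        qq (k + 1) p.1 * (mo U A.1 * es C X A.1 p.2))
        = if U.card = 0 then 0 else
        ((-1) ^ (k + 1) * mo C X) •
        ∑ p ∈ Finset.HasAntidiagonal.antidiagonal (U.card - 1),
          qq (k + 1) p.1 • (fun A : V => mo (T \ U) A.1 * es C X A.1 p.2) := by
      funext A
      rw [hid A]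
      split_ifs with hu
      · rfl
      · simp [Finset.sum_apply, smul_eq_mul]
    rw [h1]
    split_ifs with hu
    · exact Submodule.zero_mem _
    · refine Submodule.smul_mem _ _ (Submodule.sum_mem _ fun p hp => ?_)
      have hp' := Finset.HasAntidiagonal.mem_antidiagonal.1 hp
      by_cases hev : Even p.1
      · refine Submodule.smul_mem _ _ (hterm (T \ U) Finset.sdiff_subset p.2 ?_)
        intro S hSC hScard
        have hdis : Disjoint (T \ U) S := by
          refine Finset.disjoint_of_subset_left Finset.sdiff_subset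
            (Finset.disjoint_of_subset_right hSC ?_)
          rw [hC]; exact Finset.disjoint_sdiff
        have hc : ((T \ U) ∪ S).card = d + 1 - U.card + p.2 := by
          rw [Finset.card_union_of_disjoint hdis, Finset.card_sdiff_of_subset hUT, hT, hScard]
        obtain ⟨c, hc2⟩ := hev
        refine mf_mem_Osp ?_ (by omega) (by omega)
        refine Finset.union_subset (Finset.sdiff_subset.trans hTG) (hSC.trans ?_)
        rw [hC]; exact Finset.sdiff_subset
      · rw [qq_odd _ _ hev, zero_smul]
        exact Submodule.zero_mem _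
  -- isolate the last term
  have hsplit : mf V U = (qq (k + 1) (2 * m))⁻¹ •
      ((fun A : V => ∑ p ∈ Finset.HasAntidiagonal.antidiagonal (2 * m),
        qq (k + 1) p.1 * (mo U A.1 * es C X A.1 p.2))
      - ∑ p ∈ (Finset.HasAntidiagonal.antidiagonal (2 * m)).erase (2 * m, 0),
        qq (k + 1) p.1 • (fun A : V => mo U A.1 * es C X A.1 p.2)) := by
    funext A
    rw [Pi.smul_apply, Pi.sub_apply, Finset.sum_apply]
    simp only [Pi.smul_apply, smul_eq_mul]
    rw [← Finset.add_sum_erase _ _ hlast]
    rw [add_sub_cancel_right, es_zero, mul_one, ← mul_assoc, inv_mul_cancel₀ hpos.ne', one_mul]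
    rfl
  rw [hsplit]
  refine Submodule.smul_mem _ _ (Submodule.sub_mem _ hsum (Submodule.sum_mem _ fun p hp => ?_))
  obtain ⟨hpne, hp'⟩ := Finset.mem_erase.1 hp
  have hp'' := Finset.HasAntidiagonal.mem_antidiagonal.1 hp'
  by_cases hev : Even p.1
  · obtain ⟨c, hc2⟩ := hev
    have hp2 : p.2 ≠ 0 := by
      intro h0
      apply hpne
      ext <;> simp <;> omega
    refine Submodule.smul_mem _ _ (hterm U hUT p.2 ?_)
    intro S hSC hScard
    have hdis : Disjoint U S := by
      refine Finset.disjoint_of_subset_left hUT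
        (Finset.disjoint_of_subset_right hSC ?_)
      rw [hC]; exact Finset.disjoint_sdiff
    have hcc : (U ∪ S).card = U.card + p.2 := by
      rw [Finset.card_union_of_disjoint hdis, hScard]
    refine ih c (by omega) (U ∪ S) ?_ (by omega)
    refine Finset.union_subset hU (hSC.trans ?_)
    rw [hC]; exact Finset.sdiff_subset
  · rw [qq_odd _ _ hev, zero_smul]
    exact Submodule.zero_mem _

/-- all small monomials are in the span -/
theorem mf_mem_small {k d : ℕ} {G : Finset α} {V : Finset (Finset α)}
    (hG : G.card = 2 * d + 2 * k + 3) (hV : Balanced k (d + 2 * k + 2) G V)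
    (hsub : ∀ A ∈ V, A ⊆ G) (heven : ∀ A ∈ V, Even A.card) {S : Finset α} (hS : S ⊆ G)
    (hcard : S.card ≤ d + 1) : mf V S ∈ Osp d G V := by
  by_cases h : (S.card + d) % 2 = 0
  · exact mf_mem_Osp hS (by omega) h
  · obtain ⟨m, hm⟩ : ∃ m, S.card + 2 * m = d + 1 := ⟨(d + 1 - S.card) / 2, by omega⟩
    exact mf_mem_of_other hG hV hsub heven m S hS hm

/-- all monomials are in the span -/
theorem mf_mem_all {k d : ℕ} {G : Finset α} {V : Finset (Finset α)}
    (hG : G.card = 2 * d + 2 * k + 3) (hV : Balanced k (d + 2 * k + 2) G V)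
    (hsub : ∀ A ∈ V, A ⊆ G) (heven : ∀ A ∈ V, Even A.card) (S : Finset α) (hS : S ⊆ G) :
    mf V S ∈ Osp d G V := by
  induction S using Finset.induction_on with
  | empty => exact mf_mem_small hG hV hsub heven hS (by simp)
  | insert a S ha ih =>
    have hS' : S ⊆ G := (Finset.subset_insert a S).trans hS
    have haG : a ∈ G := hS (Finset.mem_insert_self a S)
    have h1 : mf V (insert a S) = (fun A : V => mf V S A * sg A.1 a) := by
      funext A
      have h2 := mo_mul_sg S A.1 a
      rw [if_neg ha] at h2
      exact h2.symm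
    rw [h1]
    -- multiplication by the variable `a` preserves the span
    let L : (V → ℚ) →ₗ[ℚ] (V → ℚ) :=
      { toFun := fun f A => f A * sg A.1 a
        map_add' := by intro f g; funext A; simp [add_mul]
        map_smul' := by intro c f; funext A; simp [mul_assoc] }
    have hL : ∀ f ∈ Osp d G V, L f ∈ Osp d G V := by
      intro f hf
      have : Osp d G V ≤ (Osp d G V).comap L := by
        conv_lhs => unfold Osp
        rw [Submodule.span_le]
        intro g hg
        rw [Finset.mem_coe, Finset.mem_image] at hg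
        obtain ⟨R, hR, rfl⟩ := hg
        obtain ⟨hRG, hRd, _⟩ := Finset.mem_filter.1 hR
        rw [Finset.mem_powerset] at hRG
        change L (mf V R) ∈ Osp d G V
        by_cases haR : a ∈ R
        · have h3 : L (mf V R) = mf V (R.erase a) := by
            funext A
            have h2 := mo_mul_sg R A.1 a
            rw [if_pos haR] at h2
            exact h2
          rw [h3]
          refine mf_mem_small hG hV hsub heven ((Finset.erase_subset a R).trans hRG) ?_
          have := Finset.card_erase_le (s := R) (a := a)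
          omega
        · have h3 : L (mf V R) = mf V (insert a R) := by
            funext A
            have h2 := mo_mul_sg R A.1 a
            rw [if_neg haR] at h2
            exact h2
          rw [h3]
          refine mf_mem_small hG hV hsub heven (Finset.insert_subset haG hRG) ?_
          rw [Finset.card_insert_of_notMem haR]
          omega
      exact this hf
    exact hL _ (ih hS')

theorem sum_mo (G A B : Finset α) (hA : A ⊆ G) (hB : B ⊆ G) :
    ∑ S ∈ G.powerset, mo S B * mo S A = if A = B then 2 ^ G.card else 0 := by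
  have h1 : ∑ S ∈ G.powerset, mo S B * mo S A = ∏ e ∈ G, (1 + sg B e * sg A e) := by
    rw [Finset.prod_one_add]
    refine Finset.sum_congr rfl fun S _ => ?_
    rw [Finset.prod_mul_distrib]; rfl
  rw [h1]
  split_ifs with h
  · subst h
    rw [← Finset.prod_const]
    refine Finset.prod_congr rfl fun e _ => ?_
    rw [sg_mul_self]; norm_num
  · obtain ⟨e, he⟩ : ∃ e, e ∈ symmDiff A B := by
      by_contra hcon
      push Not at hcon
      exact h (symmDiff_eq_bot.1 (Finset.eq_empty_of_forall_notMem hcon))
    have heG : e ∈ G := by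
      rw [Finset.mem_symmDiff] at he
      rcases he with he | he
      · exact hA he.1
      · exact hB he.1
    refine Finset.prod_eq_zero heG ?_
    unfold sg
    rw [Finset.mem_symmDiff] at he
    rcases he with ⟨h1, h2⟩ | ⟨h1, h2⟩ <;> simp [h1, h2]

theorem Osp_eq_top {k d : ℕ} {G : Finset α} {V : Finset (Finset α)}
    (hG : G.card = 2 * d + 2 * k + 3) (hV : Balanced k (d + 2 * k + 2) G V)
    (hsub : ∀ A ∈ V, A ⊆ G) (heven : ∀ A ∈ V, Even A.card) : Osp d G V = ⊤ := by
  rw [eq_top_iff]
  intro f _
  have h1 : f = ∑ B : V, f B • (Pi.single B (1 : ℚ) : V → ℚ) := by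
    funext A
    rw [Finset.sum_apply]
    simp [Pi.single_apply]
  rw [h1]
  refine Submodule.sum_mem _ fun B _ => Submodule.smul_mem _ _ ?_
  have h2 : (Pi.single B (1 : ℚ) : V → ℚ)
      = ((2 : ℚ) ^ G.card)⁻¹ • ∑ S ∈ G.powerset, mo S B.1 • mf V S := by
    funext A
    rw [Pi.smul_apply, Finset.sum_apply]
    have h3 := sum_mo G A.1 B.1 (hsub A.1 A.2) (hsub B.1 B.2)
    simp only [Pi.smul_apply, smul_eq_mul, mf]
    rw [h3, Pi.single_apply]
    by_cases h4 : A = B
    · rw [if_pos h4, if_pos (by rw [h4])]
      rw [inv_mul_cancel₀]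
      positivity
    · rw [if_neg h4, if_neg (fun h5 => h4 (Subtype.ext h5)), mul_zero]
  rw [h2]
  refine Submodule.smul_mem _ _ (Submodule.sum_mem _ fun S hS => Submodule.smul_mem _ _ ?_)
  exact mf_mem_all hG hV hsub heven S (Finset.mem_powerset.1 hS)

theorem card_idx (d : ℕ) (G : Finset α) (hG : 0 < G.card) :
    (idx d G).card = ∑ i ∈ Finset.range (d + 1), (G.card - 1).choose i := by
  have hsum : ∀ d, (idx (d + 1) G).card + (idx d G).card
      = ∑ i ∈ Finset.range (d + 2), G.card.choose i := by
    intro d
    have hdis : Disjoint (idx (d + 1) G) (idx d G) := by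
      rw [Finset.disjoint_left]
      intro S h1 h2
      have h3 := (Finset.mem_filter.1 h1).2
      have h4 := (Finset.mem_filter.1 h2).2
      omega
    rw [← Finset.card_union_of_disjoint hdis]
    have h1 : idx (d + 1) G ∪ idx d G = G.powerset.filter (fun S => S.card ≤ d + 1) := by
      ext S
      simp only [idx, Finset.mem_union, Finset.mem_filter]
      constructor
      · rintro (⟨h1, h2, _⟩ | ⟨h1, h2, _⟩)
        · exact ⟨h1, h2⟩
        · exact ⟨h1, by omega⟩
      · rintro ⟨h1, h2⟩
        by_cases h3 : (S.card + (d + 1)) % 2 = 0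
        · exact Or.inl ⟨h1, h2, h3⟩
        · exact Or.inr ⟨h1, by omega, by omega⟩
    rw [h1]
    have h2 : G.powerset.filter (fun S => S.card ≤ d + 1)
        = (Finset.range (d + 2)).biUnion (fun i => G.powersetCard i) := by
      ext S
      simp only [Finset.mem_filter, Finset.mem_powerset, Finset.mem_biUnion, Finset.mem_range,
        Finset.mem_powersetCard]
      constructor
      · rintro ⟨h1, h2⟩
        exact ⟨S.card, by omega, h1, rfl⟩
      · rintro ⟨i, hi, h1, h2⟩
        exact ⟨h1, by omega⟩
    rw [h2, Finset.card_biUnion]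
    · refine Finset.sum_congr rfl fun i _ => Finset.card_powersetCard i G
    · intro i _ j _ hij
      exact Finset.pairwise_disjoint_powersetCard G hij
  obtain ⟨n, hn⟩ : ∃ n, G.card = n + 1 := ⟨G.card - 1, by omega⟩
  rw [hn, Nat.add_sub_cancel]
  have hpas : ∀ d, ∑ i ∈ Finset.range (d + 2), (n + 1).choose i
      = ∑ i ∈ Finset.range (d + 2), n.choose i + ∑ i ∈ Finset.range (d + 1), n.choose i := by
    intro d
    rw [Finset.sum_range_succ' (fun i => (n + 1).choose i),
      Finset.sum_range_succ' (fun i => n.choose i) (d + 1)]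
    simp only [Nat.choose_succ_succ, Finset.sum_add_distrib, Nat.choose_zero_right,
      Nat.succ_eq_add_one]
    omega
  induction d with
  | zero =>
    have : idx 0 G = {∅} := by
      ext S
      simp only [idx, Finset.mem_filter, Finset.mem_powerset, Finset.mem_singleton]
      constructor
      · rintro ⟨_, h, _⟩
        exact Finset.card_eq_zero.1 (by omega)
      · rintro rfl
        simp
    rw [this]
    simp
  | succ d ih =>
    have h1 := hsum d
    rw [hn, hpas d, ih] at h1
    rw [show d + 1 + 1 = d + 2 from rfl]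
    omega

/-- the bound in the base case, for the even part -/
theorem card_even_le {k d : ℕ} {G : Finset α} {V : Finset (Finset α)}
    (hG : G.card = 2 * d + 2 * k + 3) (hV : Balanced k (d + 2 * k + 2) G V)
    (hsub : ∀ A ∈ V, A ⊆ G) (heven : ∀ A ∈ V, Even A.card) :
    V.card ≤ ∑ i ∈ Finset.range (d + 1), (G.card - 1).choose i := by
  have h1 : Module.finrank ℚ (V → ℚ) = V.card := by
    rw [Module.finrank_fintype_fun_eq_card]
    simp
  have h2 : Module.finrank ℚ (Osp d G V) ≤ ((idx d G).image (mf V)).card :=
    finrank_span_finset_le_card _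
  rw [Osp_eq_top hG hV hsub heven, finrank_top, h1] at h2
  refine h2.trans (Finset.card_image_le.trans ?_)
  rw [card_idx d G (by omega)]

end

end Pool.Agent.Work.MP_463270_co
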