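import Mathlib
import Pool.Agent.Work.MP_463270_co.Core

set_option autoImplicit false

/-!
The bound for all large ground sets, by deletion and contraction of an element.
-/

namespace Pool.Agent.Work.MP_463270_co

section

variable {α : Type*} [DecidableEq α]

/-- the bound in the base case -/
theorem card_le_base {k d : ℕ} {G : Finset α} {V : Finset (Finset α)}
    (hG : G.card = 2 * d + 2 * k + 3) (hV : Balanced k (d + 2 * k + 2) G V)
    (hsub : ∀ A ∈ V, A ⊆ G) (hsymm : ∀ A ∈ V, G \ A ∈ V) :
    V.card ≤ 2 * ∑ i ∈ Finset.range (d + 1), (G.card - 1).choose i := by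
  have h0 : (V.filter fun A => Even A.card).card
      ≤ ∑ i ∈ Finset.range (d + 1), (G.card - 1).choose i := by
    refine card_even_le (k := k) hG ?_ ?_ ?_
    · intro C hC hcard
      obtain ⟨X, hX⟩ := hV C hC hcard
      exact ⟨X, fun A hA => hX A (Finset.mem_filter.1 hA).1⟩
    · intro A hA; exact hsub A (Finset.mem_filter.1 hA).1
    · intro A hA; exact (Finset.mem_filter.1 hA).2
  have h1 : (V.filter fun A => ¬ Even A.card).card ≤ (V.filter fun A => Even A.card).card := by
    refine Finset.card_le_card_of_injOn (fun A => G \ A) ?_ ?_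
    · intro A hA
      rw [Finset.mem_coe, Finset.mem_filter] at hA ⊢
      refine ⟨hsymm A hA.1, ?_⟩
      rw [Finset.card_sdiff_of_subset (hsub A hA.1), hG]
      have hle := Finset.card_le_card (hsub A hA.1)
      rw [Nat.not_even_iff_odd] at hA
      obtain ⟨c, hc⟩ := hA.2
      exact ⟨d + k + 1 - c, by omega⟩
    · intro A hA B hB hAB
      rw [Finset.mem_coe, Finset.mem_filter] at hA hB
      have h2 : G \ (G \ A) = G \ (G \ B) := by
        simp only at hAB
        rw [hAB]
      rwa [Finset.sdiff_sdiff_eq_self (hsub A hA.1), Finset.sdiff_sdiff_eq_self (hsub B hB.1)]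
        at h2
  have h2 := Finset.card_filter_add_card_filter_not (s := V) (fun A => Even A.card)
  omega

theorem inter_symmDiff_insert {a : α} {C A X : Finset α} (ha : a ∉ C) :
    C ∩ symmDiff (insert a A) X = C ∩ symmDiff A X := by
  ext e
  simp only [Finset.mem_inter, Finset.mem_symmDiff, Finset.mem_insert]
  constructor
  · rintro ⟨h1, h2⟩
    refine ⟨h1, ?_⟩
    have : e ≠ a := by rintro rfl; exact ha h1
    tauto
  · rintro ⟨h1, h2⟩
    refine ⟨h1, ?_⟩
    have : e ≠ a := by rintro rfl; exact ha h1
    tauto

theorem sdiff_symmDiff_insert {a : α} {C A X : Finset α} (ha : a ∉ C) :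
    C \ symmDiff (insert a A) X = C \ symmDiff A X := by
  ext e
  simp only [Finset.mem_sdiff, Finset.mem_symmDiff, Finset.mem_insert]
  constructor
  · rintro ⟨h1, h2⟩
    refine ⟨h1, ?_⟩
    have : e ≠ a := by rintro rfl; exact ha h1
    tauto
  · rintro ⟨h1, h2⟩
    refine ⟨h1, ?_⟩
    have : e ≠ a := by rintro rfl; exact ha h1
    tauto

theorem contract_aux {k : ℕ} {a : α} {C A X : Finset α} (haC : a ∉ C) (haA : a ∉ A)
    (h1 : k + 1 ≤ (insert a C ∩ symmDiff A X).card ∧
      k + 1 ≤ (insert a C \ symmDiff A X).card)
    (h2 : k + 1 ≤ (insert a C ∩ symmDiff (insert a A) X).card ∧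
      k + 1 ≤ (insert a C \ symmDiff (insert a A) X).card) :
    k + 1 ≤ (C ∩ symmDiff A X).card ∧ k + 1 ≤ (C \ symmDiff A X).card := by
  by_cases haX : a ∈ X
  · have e1 : a ∈ symmDiff A X := by
      rw [Finset.mem_symmDiff]; tauto
    have e2 : a ∉ symmDiff (insert a A) X := by
      rw [Finset.mem_symmDiff, Finset.mem_insert]; tauto
    constructor
    · have := h2.1
      rw [Finset.insert_inter_of_notMem e2, inter_symmDiff_insert haC] at this
      exact this
    · have := h1.2
      rw [Finset.insert_sdiff_of_mem _ e1] at this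
      exact this
  · have e1 : a ∉ symmDiff A X := by
      rw [Finset.mem_symmDiff]; tauto
    have e2 : a ∈ symmDiff (insert a A) X := by
      rw [Finset.mem_symmDiff, Finset.mem_insert]; tauto
    constructor
    · have := h1.1
      rw [Finset.insert_inter_of_notMem e1] at this
      exact this
    · have := h2.2
      rw [Finset.insert_sdiff_of_mem _ e2, sdiff_symmDiff_insert haC] at this
      exact this

/-- Pascal's rule for the sums of binomial coefficients -/
theorem sum_choose_succ (d n : ℕ) :
    ∑ i ∈ Finset.range (d + 2), (n + 1).choose i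
      = ∑ i ∈ Finset.range (d + 2), n.choose i + ∑ i ∈ Finset.range (d + 1), n.choose i := by
  rw [Finset.sum_range_succ' (fun i => (n + 1).choose i),
    Finset.sum_range_succ' (fun i => n.choose i) (d + 1)]
  simp only [Nat.choose_succ_succ, Finset.sum_add_distrib, Nat.choose_zero_right,
    Nat.succ_eq_add_one]
  omega

/-- the general bound -/
theorem card_le_of_balanced (k : ℕ) : ∀ (n d : ℕ) (G : Finset α) (V : Finset (Finset α)),
    G.card = n → 2 * d + 2 * k + 3 ≤ n → Balanced k (d + 2 * k + 2) G V →
    (∀ A ∈ V, A ⊆ G) → (∀ A ∈ V, G \ A ∈ V) →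
    V.card ≤ 2 * ∑ i ∈ Finset.range (d + 1), (n - 1).choose i := by
  intro n
  induction n with
  | zero => intro d G V _ h; omega
  | succ n ih =>
    intro d G V hG hn hV hsub hsymm
    rcases Nat.eq_or_lt_of_le hn with heq | hlt
    · have := card_le_base (k := k) (d := d) (by rw [hG, heq]) hV hsub hsymm
      rwa [hG] at this
    · obtain ⟨a, haG⟩ : G.Nonempty := by
        rw [← Finset.card_pos]; omega
      have hG' : (G.erase a).card = n := by
        rw [Finset.card_erase_of_mem haG, hG]; rfl
      have hsub' : G.erase a ⊆ G := Finset.erase_subset a G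
      have hmemM : ∀ A, A ∈ V.memberSubfamily a ↔ insert a A ∈ V ∧ a ∉ A := fun A =>
        Finset.mem_memberSubfamily
      have hmemN : ∀ A, A ∈ V.nonMemberSubfamily a ↔ A ∈ V ∧ a ∉ A := fun A =>
        Finset.mem_nonMemberSubfamily
      have hcard : V.card = (V.memberSubfamily a ∪ V.nonMemberSubfamily a).card
          + (V.memberSubfamily a ∩ V.nonMemberSubfamily a).card := by
        rw [Finset.card_union_add_card_inter,
          Finset.card_memberSubfamily_add_card_nonMemberSubfamily]
      have hcompl1 : ∀ A, a ∉ A → A ⊆ G → insert a ((G.erase a) \ A) = G \ A := by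
        intro A h1 h2
        ext e
        simp only [Finset.mem_insert, Finset.mem_sdiff, Finset.mem_erase]
        constructor
        · rintro (rfl | ⟨⟨_, h3⟩, h4⟩)
          · exact ⟨haG, h1⟩
          · exact ⟨h3, h4⟩
        · rintro ⟨h3, h4⟩
          by_cases h5 : e = a
          · exact Or.inl h5
          · exact Or.inr ⟨⟨h5, h3⟩, h4⟩
      have hcompl2 : ∀ A : Finset α, G \ insert a A = (G.erase a) \ A := by
        intro A
        ext e
        simp only [Finset.mem_insert, Finset.mem_sdiff, Finset.mem_erase]
        tauto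
      have hcM : ∀ A ∈ V.nonMemberSubfamily a, (G.erase a) \ A ∈ V.memberSubfamily a := by
        intro A hA
        obtain ⟨h1, h2⟩ := (hmemN A).1 hA
        rw [hmemM, hcompl1 A h2 (hsub A h1)]
        exact ⟨hsymm A h1, by simp⟩
      have hcN : ∀ A ∈ V.memberSubfamily a, (G.erase a) \ A ∈ V.nonMemberSubfamily a := by
        intro A hA
        obtain ⟨h1, h2⟩ := (hmemM A).1 hA
        rw [hmemN, ← hcompl2 A]
        exact ⟨hsymm _ h1, by simp⟩
      -- deletion
      have hU : (V.memberSubfamily a ∪ V.nonMemberSubfamily a).card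
          ≤ 2 * ∑ i ∈ Finset.range (d + 1), (n - 1).choose i := by
        refine ih d (G.erase a) _ hG' (by omega) ?_ ?_ ?_
        · intro C hC hCc
          obtain ⟨X, hX⟩ := hV C (hC.trans hsub') hCc
          refine ⟨X, fun A hA => ?_⟩
          have haC : a ∉ C := fun h => (Finset.mem_erase.1 (hC h)).1 rfl
          rw [Finset.mem_union, hmemM, hmemN] at hA
          rcases hA with ⟨h1, _⟩ | ⟨h1, _⟩
          · have := hX _ h1
            rwa [inter_symmDiff_insert haC, sdiff_symmDiff_insert haC] at this
          · exact hX _ h1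
        · intro A hA
          rw [Finset.mem_union, hmemM, hmemN] at hA
          rw [Finset.subset_erase]
          rcases hA with ⟨h1, h2⟩ | ⟨h1, h2⟩
          · exact ⟨(Finset.subset_insert a A).trans (hsub _ h1), h2⟩
          · exact ⟨hsub _ h1, h2⟩
        · intro A hA
          rw [Finset.mem_union] at hA ⊢
          rcases hA with h1 | h1
          · exact Or.inr (hcN A h1)
          · exact Or.inl (hcM A h1)
      -- contraction
      have hcontr : ∀ C ⊆ G.erase a, C.card + 1 = d + 2 * k + 2 → ∃ X : Finset α,
          ∀ A ∈ V.memberSubfamily a ∩ V.nonMemberSubfamily a,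
          k + 1 ≤ (C ∩ symmDiff A X).card ∧ k + 1 ≤ (C \ symmDiff A X).card := by
        intro C hC hCc
        have haC : a ∉ C := fun h => (Finset.mem_erase.1 (hC h)).1 rfl
        obtain ⟨X, hX⟩ := hV (insert a C)
          (Finset.insert_subset haG (hC.trans hsub')) (by
            rw [Finset.card_insert_of_notMem haC, hCc])
        refine ⟨X, fun A hA => ?_⟩
        rw [Finset.mem_inter, hmemM, hmemN] at hA
        obtain ⟨⟨h1, h2⟩, h3, _⟩ := hA
        exact contract_aux haC h2 (hX A h3) (hX _ h1)
      rcases d with _ | d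
      · -- the contraction is empty
        have hempty : V.memberSubfamily a ∩ V.nonMemberSubfamily a = ∅ := by
          rw [Finset.eq_empty_iff_forall_notMem]
          intro A hA
          obtain ⟨C, hC, hCc⟩ := Finset.exists_subset_card_eq
            (show 2 * k + 1 ≤ (G.erase a).card by omega)
          obtain ⟨X, hX⟩ := hcontr C hC (by omega)
          obtain ⟨h1, h2⟩ := hX A hA
          have h3 := Finset.card_sdiff_add_card_inter C (symmDiff A X)
          omega
        rw [hcard, hempty, Finset.card_empty, add_zero]
        refine hU.trans ?_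
        simp
      · have hI : (V.memberSubfamily a ∩ V.nonMemberSubfamily a).card
            ≤ 2 * ∑ i ∈ Finset.range (d + 1), (n - 1).choose i := by
          refine ih d (G.erase a) _ hG' (by omega) ?_ ?_ ?_
          · intro C hC hCc
            exact hcontr C hC (by omega)
          · intro A hA
            rw [Finset.mem_inter, hmemN] at hA
            rw [Finset.subset_erase]
            exact ⟨hsub _ hA.2.1, hA.2.2⟩
          · intro A hA
            rw [Finset.mem_inter] at hA ⊢
            exact ⟨hcM A hA.2, hcN A hA.1⟩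
        obtain ⟨n', rfl⟩ : ∃ n', n = n' + 1 := ⟨n - 1, by omega⟩
        rw [Nat.add_sub_cancel] at hU hI ⊢
        rw [hcard, sum_choose_succ]
        rw [show d + 1 + 1 = d + 2 from rfl] at hU
        omega

end

end Pool.Agent.Work.MP_463270_co
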