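import Mathlib
import Pool.Agent.Work.MP_463270_co.Defs
import Pool.Agent.Work.MP_463270_co.Bound

set_option autoImplicit false

/-!
The upper bound for the number of `k`-neighborly reorientations of an oriented matroid.
-/

namespace Pool.Agent.Work.MP_463270_co

namespace OrientedMatroid

variable {E : Type*}

theorem neg_eq_one_iff (s : SignType) : -s = 1 ↔ s = -1 := by
  cases s <;> decide

theorem neg_eq_neg_one_iff (s : SignType) : -s = -1 ↔ s = 1 := by
  cases s <;> decide

theorem neighborly_circuit_neg [Fintype E] {N : OrientedMatroid E} {k : ℕ}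
    (h : N.Neighborly k) {X : E → SignType} (hX : X ∈ N.circuits) :
    k + 1 ≤ (Finset.univ.filter fun e => X e = -1).card := by
  classical
  by_contra hcon
  obtain ⟨Y, hY, hY0, hY1⟩ := h.2 (Finset.univ.filter fun e => X e = -1) (by omega)
  have hY0' : ∀ e, X e = -1 → Y e = 0 := fun e he => hY0 e (by simp [he])
  have hY1' : ∀ e, X e ≠ -1 → Y e = 1 := fun e he => hY1 e (by simp [he])
  rcases hY X hX with h0 | ⟨_, e, he⟩
  · obtain ⟨e, he⟩ := h.1 (-X) (N.neg_mem X hX)
    rw [Pi.neg_apply, neg_eq_neg_one_iff] at he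
    have h1 := h0 e
    rw [he, hY1' e (by rw [he]; decide)] at h1
    exact absurd h1 (by decide)
  · by_cases h1 : X e = -1
    · rw [hY0' e h1, mul_zero] at he
      exact absurd he (by decide)
    · rw [hY1' e h1, mul_one] at he
      exact h1 he

theorem neighborly_circuit_pos [Fintype E] {N : OrientedMatroid E} {k : ℕ}
    (h : N.Neighborly k) {X : E → SignType} (hX : X ∈ N.circuits) :
    k + 1 ≤ (Finset.univ.filter fun e => X e = 1).card := by
  have h1 := neighborly_circuit_neg h (N.neg_mem X hX)
  simpa [Pi.neg_apply, neg_eq_neg_one_iff] using h1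

theorem neighborly_of_circuits [Fintype E] {N : OrientedMatroid E} {k : ℕ}
    (h : ∀ X ∈ N.circuits, k + 1 ≤ (Finset.univ.filter fun e => X e = 1).card) :
    N.Neighborly k := by
  classical
  have h' : ∀ X ∈ N.circuits, k + 1 ≤ (Finset.univ.filter fun e => X e = -1).card := by
    intro X hX
    have h1 := h (-X) (N.neg_mem X hX)
    simpa [Pi.neg_apply, neg_eq_one_iff] using h1
  refine ⟨?_, ?_⟩
  · intro X hX
    have h1 := h' X hX
    obtain ⟨e, he⟩ := Finset.card_pos.1 (by omega :
      0 < (Finset.univ.filter fun e => X e = -1).card)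
    exact ⟨e, (Finset.mem_filter.1 he).2⟩
  · intro F hF
    refine ⟨fun e => if e ∈ F then 0 else 1, ?_, ?_, ?_⟩
    · intro X hX
      right
      constructor
      · obtain ⟨e, he, heF⟩ := Finset.exists_mem_notMem_of_card_lt_card
          (lt_of_lt_of_le (Nat.lt_succ_of_le hF) (h X hX))
        refine ⟨e, ?_⟩
        simp only [if_neg heF, mul_one]
        exact (Finset.mem_filter.1 he).2
      · obtain ⟨e, he, heF⟩ := Finset.exists_mem_notMem_of_card_lt_card
          (lt_of_lt_of_le (Nat.lt_succ_of_le hF) (h' X hX))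
        refine ⟨e, ?_⟩
        simp only [if_neg heF, mul_one]
        exact (Finset.mem_filter.1 he).2
    · intro e he
      exact if_pos he
    · intro e he
      exact if_neg he

theorem flip_compl (A : Set E) (X : E → SignType) : flip Aᶜ X = -flip A X := by
  ext e
  by_cases h : e ∈ A
  · rw [flip_of_notMem (by simpa using h), Pi.neg_apply, flip_of_mem h, neg_neg]
  · rw [flip_of_mem (by simpa using h), Pi.neg_apply, flip_of_notMem h]

theorem neighborly_congr {N N' : OrientedMatroid E} (h : N.circuits = N'.circuits) {k : ℕ}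
    (hN : N.Neighborly k) : N'.Neighborly k := by
  obtain ⟨h1, h2⟩ := hN
  refine ⟨?_, ?_⟩
  · intro X hX
    exact h1 X (h ▸ hX)
  · intro F hF
    obtain ⟨Y, hY, hY0, hY1⟩ := h2 F hF
    exact ⟨Y, fun X hX => hY X (h ▸ hX), hY0, hY1⟩

theorem reorient_compl (M : OrientedMatroid E) (A : Set E) :
    (M.reorient A).circuits = (M.reorient Aᶜ).circuits := by
  ext X
  constructor
  · rintro ⟨Z, hZ, rfl⟩
    refine ⟨-Z, M.neg_mem Z hZ, ?_⟩
    rw [flip_compl, flip_neg, neg_neg]
  · rintro ⟨Z, hZ, rfl⟩
    refine ⟨-Z, M.neg_mem Z hZ, ?_⟩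
    rw [flip_compl, flip_neg]

/-- the family of all sets whose reorientation is `k`-neighborly -/
noncomputable def family [Fintype E] (M : OrientedMatroid E) (k : ℕ) : Finset (Finset E) := by
  classical
  exact Finset.univ.filter fun A => (M.reorient (A : Set E)).Neighborly k

theorem mem_family [Fintype E] (M : OrientedMatroid E) (k : ℕ) (A : Finset E) :
    A ∈ M.family k ↔ (M.reorient (A : Set E)).Neighborly k := by
  simp [family]

theorem neighborlyCount_eq [Fintype E] (M : OrientedMatroid E) (k : ℕ) :
    M.neighborlyCount k = (M.family k).card := by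
  classical
  have h : {A : Set E | (M.reorient A).Neighborly k}
      = (fun A : Finset E => (A : Set E)) '' (M.family k : Set (Finset E)) := by
    ext A
    constructor
    · intro hA
      refine ⟨A.toFinset, ?_, by simp⟩
      rw [Finset.mem_coe, mem_family]
      simpa using hA
    · rintro ⟨B, hB, rfl⟩
      rw [Finset.mem_coe, mem_family] at hB
      exact hB
  unfold neighborlyCount
  rw [h, Set.ncard_image_of_injective _ Finset.coe_injective, Set.ncard_coe_finset]

theorem family_balanced [Fintype E] [DecidableEq E] (M : OrientedMatroid E) {r : ℕ}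
    (hM : M.HasRank r) (k : ℕ) : Balanced k (r + 1) Finset.univ (M.family k) := by
  intro C _ hC
  have hdep : ¬ M.Indep C := fun h => by
    have := hM.2 C h
    omega
  unfold Indep at hdep
  push Not at hdep
  obtain ⟨X, hX, hXC⟩ := hdep
  refine ⟨Finset.univ.filter fun e => X e = -1, fun A hA => ?_⟩
  rw [mem_family] at hA
  have hmem : flip (A : Set E) X ∈ (M.reorient (A : Set E)).circuits := ⟨X, hX, rfl⟩
  constructor
  · refine (neighborly_circuit_neg hA hmem).trans (Finset.card_le_card ?_)
    intro e he
    rw [Finset.mem_filter] at he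
    have he2 := he.2
    rw [Finset.mem_inter, Finset.mem_symmDiff, Finset.mem_filter]
    by_cases h : e ∈ A
    · rw [flip_of_mem (by exact_mod_cast h), neg_eq_neg_one_iff] at he2
      refine ⟨hXC e (by rw [he2]; decide), Or.inl ⟨h, ?_⟩⟩
      rintro ⟨_, h1⟩
      rw [he2] at h1
      exact absurd h1 (by decide)
    · rw [flip_of_notMem (by exact_mod_cast h)] at he2
      exact ⟨hXC e (by rw [he2]; decide), Or.inr ⟨⟨Finset.mem_univ e, he2⟩, h⟩⟩
  · refine (neighborly_circuit_pos hA hmem).trans (Finset.card_le_card ?_)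
    intro e he
    rw [Finset.mem_filter] at he
    have he2 := he.2
    rw [Finset.mem_sdiff, Finset.mem_symmDiff, Finset.mem_filter]
    by_cases h : e ∈ A
    · rw [flip_of_mem (by exact_mod_cast h), neg_eq_one_iff] at he2
      refine ⟨hXC e (by rw [he2]; decide), ?_⟩
      rintro (⟨_, h1⟩ | ⟨_, h1⟩)
      · exact h1 ⟨Finset.mem_univ e, he2⟩
      · exact h1 h
    · rw [flip_of_notMem (by exact_mod_cast h)] at he2
      refine ⟨hXC e (by rw [he2]; decide), ?_⟩
      rintro (⟨h1, _⟩ | ⟨⟨_, h1⟩, _⟩)
      · exact h h1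
      · rw [he2] at h1
        exact absurd h1 (by decide)

/-- The upper bound: an oriented matroid of rank `r` with `n ≥ 2 (r - k) + 1` elements has at
most `2 * ∑_{i < r - 2 k} (n - 1 choose i)` reorientations that are `k`-neighborly. -/
theorem neighborlyCount_le [Fintype E] (M : OrientedMatroid E) {r k n : ℕ} (hM : M.HasRank r)
    (hE : Fintype.card E = n) (hk : 2 * k + 1 ≤ r) (hn : 2 * (r - k) + 1 ≤ n) :
    M.neighborlyCount k ≤ 2 * ∑ i ∈ Finset.range (r - 2 * k), (n - 1).choose i := by
  classical
  rw [neighborlyCount_eq]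
  obtain ⟨d, rfl⟩ : ∃ d, r = d + 2 * k + 1 := ⟨r - (2 * k + 1), by omega⟩
  have h1 : d + 2 * k + 1 - 2 * k = d + 1 := by omega
  rw [h1]
  refine card_le_of_balanced k n d Finset.univ (M.family k) ?_ (by omega) ?_ ?_ ?_
  · rw [Finset.card_univ, hE]
  · exact family_balanced M hM k
  · intro A _
    exact Finset.subset_univ A
  · intro A hA
    rw [mem_family] at hA ⊢
    refine neighborly_congr ?_ hA
    rw [reorient_compl]
    congr 2
    ext e
    simp

end OrientedMatroid

end Pool.Agent.Work.MP_463270_co
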