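import Mathlib
import Pool.Agent.Work.MP_463270_co.Alternating
import Pool.Agent.Work.MP_463270_co.Upper

set_option autoImplicit false

/-!
The lower bound for the number of `k`-neighborly reorientations of the alternating oriented
matroid: all sign vectors with few sign changes give `k`-neighborly reorientations.
-/

namespace Pool.Agent.Work.MP_463270_co

/-- the integer sign of a Boolean -/
def bs (b : Bool) : ℤ := if b then 1 else -1

theorem st_cast (U : ℕ → Bool) (i : ℕ) :
    2 * ((st U i : SignType) : ℤ) = bs (U (i + 1)) - bs (U i) := by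
  unfold st bs
  cases U i <;> cases U (i + 1) <;> simp

/-- Abel summation: the sum of `st U i * w i` is controlled by the number of changes of `w` -/
theorem abel_bound (U w : ℕ → Bool) (n : ℕ) :
    |∑ i ∈ Finset.range (n + 1), (bs (U (i + 1)) - bs (U i)) * bs (w i)| ≤ 2 + 2 * (ch w 0 n) := by
  have key : ∀ m : ℕ, |∑ i ∈ Finset.range (m + 1), (bs (U (i + 1)) - bs (U i)) * bs (w i)
      - bs (U (m + 1)) * bs (w m)| ≤ 1 + 2 * (ch w 0 m) := by
    intro m
    induction m with
    | zero =>
      rw [ch_self]
      simp only [zero_add, Finset.range_one, Finset.sum_singleton]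
      have : (bs (U 1) - bs (U 0)) * bs (w 0) - bs (U 1) * bs (w 0) = -(bs (U 0) * bs (w 0)) := by
        ring
      rw [this]
      unfold bs
      cases U 0 <;> cases w 0 <;> simp
    | succ m ih =>
      rw [Finset.sum_range_succ, ch_succ w (Nat.zero_le m)]
      have h1 : ∑ i ∈ Finset.range (m + 1), (bs (U (i + 1)) - bs (U i)) * bs (w i)
          + (bs (U (m + 1 + 1)) - bs (U (m + 1))) * bs (w (m + 1))
          - bs (U (m + 1 + 1)) * bs (w (m + 1))
          = (∑ i ∈ Finset.range (m + 1), (bs (U (i + 1)) - bs (U i)) * bs (w i)
            - bs (U (m + 1)) * bs (w m)) + bs (U (m + 1)) * (bs (w m) - bs (w (m + 1))) := by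
        ring
      rw [h1]
      refine (abs_add_le _ _).trans ?_
      have h2 : |bs (U (m + 1)) * (bs (w m) - bs (w (m + 1)))|
          ≤ 2 * (if w m = w (m + 1) then 0 else 1) := by
        unfold bs
        cases U (m + 1) <;> cases w m <;> cases w (m + 1) <;> simp
      push_cast
      linarith
  have h := key n
  have h3 : |bs (U (n + 1)) * bs (w n)| ≤ 1 := by
    unfold bs
    cases U (n + 1) <;> cases w n <;> simp
  have h4 : ∑ i ∈ Finset.range (n + 1), (bs (U (i + 1)) - bs (U i)) * bs (w i)
      = (∑ i ∈ Finset.range (n + 1), (bs (U (i + 1)) - bs (U i)) * bs (w i)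
      - bs (U (n + 1)) * bs (w n)) + bs (U (n + 1)) * bs (w n) := by ring
  rw [h4]
  refine (abs_add_le _ _).trans ?_
  linarith

/-- sum of the entries of a sign vector -/
theorem sum_sign {E : Type*} [Fintype E] (Y : E → SignType) :
    ∑ e, ((Y e : SignType) : ℤ) = (Finset.univ.filter fun e => Y e = 1).card
      - (Finset.univ.filter fun e => Y e = -1).card := by
  rw [Finset.card_filter, Finset.card_filter]
  push_cast
  rw [← Finset.sum_sub_distrib]
  refine Finset.sum_congr rfl fun e _ => ?_
  generalize Y e = y
  cases y <;> simp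

theorem card_sign {E : Type*} [Fintype E] (Y : E → SignType) :
    (Finset.univ.filter fun e => Y e ≠ 0).card = (Finset.univ.filter fun e => Y e = 1).card
      + (Finset.univ.filter fun e => Y e = -1).card := by
  rw [Finset.card_filter, Finset.card_filter, Finset.card_filter, ← Finset.sum_add_distrib]
  refine Finset.sum_congr rfl fun e _ => ?_
  generalize Y e = y
  cases y <;> simp

/-- A sign vector with at most `r - 1 - 2k` changes gives a `k`-neighborly reorientation. -/
theorem neighborly_alternating (k d n : ℕ) (w : ℕ → Bool) (hw : ch w 0 n ≤ d) :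
    ((alternating (d + 2 * k + 1) (n + 1)).reorient {i | w i = true}).Neighborly k := by
  refine OrientedMatroid.neighborly_of_circuits ?_
  rintro _ ⟨X, hX, rfl⟩
  obtain ⟨U, hU, hUc⟩ := altCircuits_rep hX
  set Y := OrientedMatroid.flip {i : Fin (n + 1) | w i = true} X with hY
  have hYi : ∀ i : Fin (n + 1), ((Y i : SignType) : ℤ) = -(((X i : SignType) : ℤ) * bs (w i)) := by
    intro i
    by_cases h : w i = true
    · rw [hY, OrientedMatroid.flip_of_mem (by exact h), h]
      generalize X i = y
      cases y <;> simp [bs]
    · rw [hY, OrientedMatroid.flip_of_notMem (by exact h)]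
      rw [Bool.not_eq_true] at h
      rw [h]
      generalize X i = y
      cases y <;> simp [bs]
  have hsum : 2 * ∑ i, ((Y i : SignType) : ℤ)
      = -∑ i ∈ Finset.range (n + 1), (bs (U (i + 1)) - bs (U i)) * bs (w i) := by
    rw [← Fin.sum_univ_eq_sum_range (fun i => (bs (U (i + 1)) - bs (U i)) * bs (w i)) (n + 1),
      Finset.mul_sum, ← Finset.sum_neg_distrib]
    refine Finset.sum_congr rfl fun i _ => ?_
    rw [hYi, hU, ← st_cast]
    ring
  have hb := abel_bound U w n
  have hb' := abs_le.1 hb
  have hcard : (Finset.univ.filter fun e => Y e ≠ 0).card = d + 2 * k + 2 := by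
    rw [← hX.1]
    congr 1
    refine Finset.filter_congr fun i _ => ?_
    exact OrientedMatroid.flip_ne_zero _ X i
  rw [card_sign] at hcard
  rw [sum_sign] at hsum
  have hw' : (ch w 0 n : ℤ) ≤ d := by exact_mod_cast hw
  zify at hcard
  by_contra hcon
  push Not at hcon
  zify at hcon
  obtain ⟨h1, h2⟩ := hb'
  omega

/-- the Boolean sequence with start value `b` and changes at the elements of `B` -/
def wseq (b : Bool) (B : Finset ℕ) : ℕ → Bool :=
  fun i => xor b (decide (Odd (B.filter fun j => j < i).card))

theorem wseq_zero (b : Bool) (B : Finset ℕ) : wseq b B 0 = b := by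
  simp [wseq]

theorem wseq_change (b : Bool) (B : Finset ℕ) (i : ℕ) :
    wseq b B i ≠ wseq b B (i + 1) ↔ i ∈ B := by
  have h1 : (B.filter fun j => j < i + 1).card
      = (B.filter fun j => j < i).card + if i ∈ B then 1 else 0 := by
    split_ifs with h
    · rw [← Finset.card_insert_of_notMem (show i ∉ B.filter fun j => j < i by simp)]
      congr 1
      ext j
      simp only [Finset.mem_filter, Finset.mem_insert]
      constructor
      · rintro ⟨h2, h3⟩
        rcases Nat.lt_succ_iff_lt_or_eq.1 h3 with h4 | h4
        · exact Or.inr ⟨h2, h4⟩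
        · exact Or.inl h4
      · rintro (rfl | ⟨h2, h3⟩)
        · exact ⟨h, by omega⟩
        · exact ⟨h2, by omega⟩
    · rw [add_zero]
      congr 1
      refine Finset.filter_congr fun j hj => ?_
      have : j ≠ i := by rintro rfl; exact h hj
      omega
  unfold wseq
  rw [h1]
  split_ifs with h
  · have h3 : decide (Odd ((B.filter fun j => j < i).card + 1))
        = !decide (Odd (B.filter fun j => j < i).card) := by
      rw [← decide_not]
      exact decide_eq_decide.2 Nat.odd_add_one
    rw [h3]
    by_cases h2 : Odd (B.filter fun j => j < i).card <;> cases b <;> simp [h, h2]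
  · simp [h]

theorem ch_wseq (b : Bool) (B : Finset ℕ) (n : ℕ) (hB : B ⊆ Finset.range n) :
    ch (wseq b B) 0 n = B.card := by
  unfold ch
  congr 1
  ext i
  simp only [Finset.mem_filter, Finset.mem_Ico]
  rw [wseq_change]
  constructor
  · exact fun h => h.2
  · exact fun h => ⟨⟨Nat.zero_le _, Finset.mem_range.1 (hB h)⟩, h⟩

/-- The lower bound for the alternating oriented matroid. -/
theorem le_neighborlyCount_alternating (k d n : ℕ) :
    2 * ∑ i ∈ Finset.range (d + 1), n.choose i
      ≤ (alternating (d + 2 * k + 1) (n + 1)).neighborlyCount k := by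
  classical
  rw [OrientedMatroid.neighborlyCount_eq]
  have hcount : ((Finset.range n).powerset.filter fun B => B.card ≤ d).card
      = ∑ i ∈ Finset.range (d + 1), n.choose i := by
    have h2 : (Finset.range n).powerset.filter (fun S => S.card ≤ d)
        = (Finset.range (d + 1)).biUnion (fun i => (Finset.range n).powersetCard i) := by
      ext S
      simp only [Finset.mem_filter, Finset.mem_powerset, Finset.mem_biUnion, Finset.mem_range,
        Finset.mem_powersetCard]
      constructor
      · rintro ⟨h1, h2⟩
        exact ⟨S.card, by omega, h1, rfl⟩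
      · rintro ⟨i, hi, h1, h2⟩
        exact ⟨h1, by omega⟩
    rw [h2, Finset.card_biUnion]
    · refine Finset.sum_congr rfl fun i _ => ?_
      rw [Finset.card_powersetCard, Finset.card_range]
    · intro i _ j _ hij
      exact Finset.pairwise_disjoint_powersetCard _ hij
  rw [← hcount, ← Fintype.card_bool, ← Finset.card_univ (α := Bool), ← Finset.card_product]
  refine Finset.card_le_card_of_injOn
    (fun p => (Finset.univ.filter fun i : Fin (n + 1) => wseq p.1 p.2 i = true)) ?_ ?_
  · rintro ⟨b, B⟩ hp
    rw [Finset.mem_coe, Finset.mem_product, Finset.mem_filter, Finset.mem_powerset] at hp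
    rw [Finset.mem_coe, OrientedMatroid.mem_family]
    have h1 := neighborly_alternating k d n (wseq b B) (by
      rw [ch_wseq b B n hp.2.1]; exact hp.2.2)
    have h2 : ((Finset.univ.filter fun i : Fin (n + 1) => wseq b B i = true :
        Finset (Fin (n + 1))) : Set (Fin (n + 1))) = {i : Fin (n + 1) | wseq b B i = true} := by
      ext i
      simp
    rw [h2]
    exact h1
  · rintro ⟨b, B⟩ hp ⟨b', B'⟩ hp' heq
    rw [Finset.mem_coe, Finset.mem_product, Finset.mem_filter, Finset.mem_powerset] at hp hp'
    simp only at heq
    have h1 : ∀ i, i < n + 1 → wseq b B i = wseq b' B' i := by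
      intro i hi
      have h2 := Finset.ext_iff.1 heq ⟨i, hi⟩
      simp only [Finset.mem_filter, Finset.mem_univ, true_and] at h2
      cases h3 : wseq b B i <;> cases h4 : wseq b' B' i <;> simp_all
    have hb : b = b' := by
      have h2 := h1 0 (by omega)
      rwa [wseq_zero, wseq_zero] at h2
    have hB : B = B' := by
      ext i
      by_cases hi : i < n
      · rw [← wseq_change b B i, ← wseq_change b' B' i, h1 i (by omega), h1 (i + 1) (by omega)]
      · constructor
        · intro h2; exact absurd (Finset.mem_range.1 (hp.2.1 h2)) hi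
        · intro h2; exact absurd (Finset.mem_range.1 (hp'.2.1 h2)) hi
    rw [hb, hB]

end Pool.Agent.Work.MP_463270_co
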